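import Mathlib
set_option autoImplicit false
namespace Pool.Agent.J4H40.PB
open Finset

/-- the number of the partitions of `n` without parts in `B` -/
noncomputable def pn (B : Set ℕ) (n : ℕ) : ℕ :=
  Set.ncard {π : Nat.Partition n | ∀ i ∈ π.parts, i ∉ B}

lemma pn_lt {B : Set ℕ} {b n : ℕ} (h : n < b) : pn (insert b B) n = pn B n := by
  unfold pn
  congr 1
  ext π
  simp only [Set.mem_setOf_eq]
  constructor
  · intro h1 i hi hB
    exact h1 i hi (Set.mem_insert_of_mem _ hB)
  · intro h1 i hi hB
    rcases hB with hB | hB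
    · have h2 := π.parts_sum
      have h3 := Multiset.le_sum_of_mem hi
      omega
    · exact h1 i hi hB

lemma pn_ge {B : Set ℕ} {b n : ℕ} (hb : 0 < b) (hB : b ∉ B) (h : b ≤ n) :
    pn B n = pn (insert b B) n + pn B (n - b) := by
  unfold pn
  have h1 : {π : Nat.Partition n | ∀ i ∈ π.parts, i ∉ B} =
      {π : Nat.Partition n | ∀ i ∈ π.parts, i ∉ insert b B} ∪
      {π : Nat.Partition n | (∀ i ∈ π.parts, i ∉ B) ∧ b ∈ π.parts} := by
    ext π
    simp only [Set.mem_setOf_eq, Set.mem_union]
    constructor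
    · intro h2
      by_cases h3 : b ∈ π.parts
      · exact Or.inr ⟨h2, h3⟩
      · left
        intro i hi hB
        rcases hB with hB | hB
        · rw [hB] at hi; exact h3 hi
        · exact h2 i hi hB
    · rintro (h2 | h2)
      · intro i hi hB
        exact h2 i hi (Set.mem_insert_of_mem _ hB)
      · exact h2.1
  have h2 : Disjoint {π : Nat.Partition n | ∀ i ∈ π.parts, i ∉ insert b B}
      {π : Nat.Partition n | (∀ i ∈ π.parts, i ∉ B) ∧ b ∈ π.parts} := by
    rw [Set.disjoint_left]
    intro π h2 h3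
    exact h2 b h3.2 (Set.mem_insert _ _)
  rw [h1, Set.ncard_union_eq h2 (Set.toFinite _) (Set.toFinite _)]
  have h3 : Set.ncard {π : Nat.Partition n | (∀ i ∈ π.parts, i ∉ B) ∧ b ∈ π.parts} =
      Set.ncard {π : Nat.Partition (n - b) | ∀ i ∈ π.parts, i ∉ B} := by
    symm
    refine Set.ncard_congr (fun π _ => (⟨b ::ₘ π.parts, fun {i} hi => ?_, ?_⟩ : Nat.Partition n)) ?_ ?_ ?_
    · rcases Multiset.mem_cons.1 hi with h2 | h2
      · omega
      · exact π.parts_pos h2
    · rw [Multiset.sum_cons, π.parts_sum]; omega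
    · intro π hπ
      simp only [Set.mem_setOf_eq] at hπ ⊢
      refine ⟨fun i hi => ?_, Multiset.mem_cons_self _ _⟩
      rcases Multiset.mem_cons.1 hi with h2 | h2
      · rw [h2]; exact hB
      · exact hπ i h2
    · intro π π' _ _ he
      ext1
      have := congrArg Nat.Partition.parts he
      exact (Multiset.cons_inj_right b).1 this
    · intro π hπ
      simp only [Set.mem_setOf_eq] at hπ
      refine ⟨⟨π.parts.erase b, fun {i} hi => π.parts_pos (Multiset.mem_of_mem_erase hi), ?_⟩, ?_, ?_⟩
      · have h2 := π.parts_sum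
        have h3 := Multiset.sum_erase hπ.2
        omega
      · simp only [Set.mem_setOf_eq]
        exact fun i hi => hπ.1 i (Multiset.mem_of_mem_erase hi)
      · ext1
        exact Multiset.cons_erase hπ.2
  rw [h3]

/-- the parity -/
noncomputable def pz (B : Set ℕ) (n : ℕ) : ZMod 2 := (pn B n : ZMod 2)

lemma pz_ge {B : Set ℕ} {b n : ℕ} (hb : 0 < b) (hB : b ∉ B) (h : b ≤ n) :
    pz (insert b B) n = pz B n + pz B (n - b) := by
  unfold pz
  rw [pn_ge hb hB h]
  push_cast
  rw [add_assoc, CharTwo.add_self_eq_zero, add_zero]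

lemma pn_zero (B : Set ℕ) : pn B 0 = 1 := by
  unfold pn
  rw [Set.ncard_eq_one]
  refine ⟨default, ?_⟩
  ext π
  simp only [Set.mem_setOf_eq, Set.mem_singleton_iff]
  constructor
  · intro _; exact Subsingleton.elim _ _
  · intro _ i hi
    have h2 := π.parts_sum
    have h3 := Multiset.le_sum_of_mem hi
    have h4 := π.parts_pos hi
    omega

/-- only the elements of `B` up to `n` matter -/
lemma pn_congr {B C : Set ℕ} {n : ℕ} (h : ∀ i ≤ n, i ∈ B ↔ i ∈ C) : pn B n = pn C n := by
  unfold pn
  congr 1
  ext π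
  simp only [Set.mem_setOf_eq]
  have h0 : ∀ i ∈ π.parts, i ≤ n := by
    intro i hi
    have h2 := π.parts_sum
    have h3 := Multiset.le_sum_of_mem hi
    omega
  constructor
  · intro h1 i hi hC
    exact h1 i hi ((h i (h0 i hi)).2 hC)
  · intro h1 i hi hC
    exact h1 i hi ((h i (h0 i hi)).1 hC)

lemma pz_congr {B C : Set ℕ} {n : ℕ} (h : ∀ i ≤ n, i ∈ B ↔ i ∈ C) : pz B n = pz C n := by
  unfold pz; rw [pn_congr h]

/-- first order expansion -/
lemma pz_union (B : Set ℕ) (M : ℕ) (hB : ∀ b ∈ B, b ≤ M) (D : Finset ℕ) (hD : ∀ d ∈ D, M < d) :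
    ∀ n ≤ 2 * M, pz (B ∪ (D : Set ℕ)) n = pz B n + ∑ d ∈ D, if d ≤ n then pz B (n - d) else 0 := by
  classical
  induction D using Finset.induction_on with
  | empty => intro n _; simp
  | insert d D hd ih =>
    intro n hn
    have hdM : M < d := hD d (mem_insert_self _ _)
    have ih' := ih (fun x hx => hD x (mem_insert_of_mem hx)) n hn
    have e1 : B ∪ ((insert d D : Finset ℕ) : Set ℕ) = insert d (B ∪ (D : Set ℕ)) := by
      ext x
      simp only [coe_insert, Set.mem_union, Set.mem_insert_iff, mem_coe]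
      tauto
    rw [e1, sum_insert hd]
    by_cases h : d ≤ n
    · rw [if_pos h, pz_ge (by omega) _ h, ih']
      · have e2 : pz (B ∪ (D : Set ℕ)) (n - d) = pz B (n - d) := by
          apply pz_congr
          intro i hi
          simp only [Set.mem_union, mem_coe]
          constructor
          · rintro (h2 | h2)
            · exact h2
            · have := hD i (mem_insert_of_mem h2); omega
          · exact Or.inl
        rw [e2]
        ring
      · simp only [Set.mem_union, mem_coe, not_or]
        refine ⟨fun h2 => ?_, hd⟩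
        have := hB d h2
        omega
    · rw [if_neg h, zero_add]
      rw [← ih']
      unfold pz
      rw [pn_lt (by omega)]

end Pool.Agent.J4H40.PB
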