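import Mathlib
set_option autoImplicit false
namespace Pool.Agent.J4H40.PB
open Finset

/-- the sign of a parity -/
noncomputable def chi (x : ZMod 2) : ℝ := if x = 0 then 1 else -1

lemma chi_add (x y : ZMod 2) : chi (x + y) = chi x * chi y := by
  have h2 : ∀ x : ZMod 2, x = 0 ∨ x = 1 := by decide
  have h3 : (1 : ZMod 2) + 1 = 0 := by decide
  have h4 : (1 : ZMod 2) ≠ 0 := by decide
  unfold chi
  rcases h2 x with rfl | rfl <;> rcases h2 y with rfl | rfl
  · simp
  · simp [h4]
  · simp [h4]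
  · rw [h3, if_pos rfl, if_neg h4]; norm_num

lemma chi_zero : chi 0 = 1 := by simp [chi]

lemma chi_sq (x : ZMod 2) : chi x * chi x = 1 := by
  rw [← chi_add, CharTwo.add_self_eq_zero, chi_zero]

lemma abs_chi (x : ZMod 2) : |chi x| = 1 := by
  unfold chi; split_ifs <;> simp

lemma chi_sum {α : Type} (s : Finset α) (f : α → ZMod 2) : chi (∑ i ∈ s, f i) = ∏ i ∈ s, chi (f i) := by
  classical
  induction s using Finset.induction_on with
  | empty => simp [chi_zero]
  | insert a s ha ih => rw [sum_insert ha, prod_insert ha, chi_add, ih]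

/-- a sum of signs in which both signs occur at least `R` times -/
lemma sum_chi_le {α : Type} [DecidableEq α] (s : Finset α) (g : α → ZMod 2) (R : ℕ)
    (h0 : R ≤ (s.filter (fun b => g b = 0)).card) (h1 : R ≤ (s.filter (fun b => ¬ g b = 0)).card) :
    |∑ b ∈ s, chi (g b)| ≤ (s.card : ℝ) - 2 * R := by
  have e1 : ∑ b ∈ s, chi (g b) = ((s.filter (fun b => g b = 0)).card : ℝ) -
      ((s.filter (fun b => ¬ g b = 0)).card : ℝ) := by
    rw [← sum_filter_add_sum_filter_not s (fun b => g b = 0)]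
    rw [sum_congr rfl (g := fun _ => (1 : ℝ)) (fun b hb => by rw [mem_filter] at hb; simp [chi, hb.2])]
    rw [sum_congr (s₁ := s.filter (fun b => ¬ g b = 0)) rfl (g := fun _ => (-1 : ℝ))
      (fun b hb => by rw [mem_filter] at hb; simp [chi, hb.2])]
    simp
    ring
  have e2 : (s.card : ℝ) = ((s.filter (fun b => g b = 0)).card : ℝ) +
      ((s.filter (fun b => ¬ g b = 0)).card : ℝ) := by
    rw [← Nat.cast_add, card_filter_add_card_filter_not]
  have h0' : (R : ℝ) ≤ ((s.filter (fun b => g b = 0)).card : ℝ) := by exact_mod_cast h0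
  have h1' : (R : ℝ) ≤ ((s.filter (fun b => ¬ g b = 0)).card : ℝ) := by exact_mod_cast h1
  rw [e1, e2, abs_le]
  constructor <;> linarith

/-- **The second moment**: for one sequence and one set of places -/
lemma second {m : ℕ} (Bl I : Finset ℕ) (v : ℕ → ZMod 2) (w : ℕ → ℕ → ZMod 2) (H : ℕ) (q : ℝ) (hq : 0 ≤ q)
    (hw : ∀ n ∈ I, ∀ n' ∈ I, n + H ≤ n' → |∑ b ∈ Bl, chi (w n b + w n' b)| ≤ q) (hH : 1 ≤ H) :
    ∑ β ∈ Fintype.piFinset (fun _ : Fin m => Bl),
      (∑ n ∈ I, chi (v n + ∑ i, w n (β i))) ^ 2 ≤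
      (2 * H * I.card : ℕ) * (Bl.card : ℝ) ^ m + (I.card : ℝ) ^ 2 * q ^ m := by
  have e1 : ∀ n n' : ℕ, ∑ β ∈ Fintype.piFinset (fun _ : Fin m => Bl),
      chi (v n + ∑ i, w n (β i)) * chi (v n' + ∑ i, w n' (β i)) =
      chi (v n + v n') * (∑ b ∈ Bl, chi (w n b + w n' b)) ^ m := by
    intro n n'
    have e2 : (∑ b ∈ Bl, chi (w n b + w n' b)) ^ m =
        ∏ _i : Fin m, ∑ b ∈ Bl, chi (w n b + w n' b) := by simp
    rw [e2, Finset.prod_univ_sum, mul_sum]
    apply sum_congr rfl
    intro β _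
    rw [← chi_add, ← chi_sum, ← chi_add]
    congr 1
    rw [sum_add_distrib]
    ring
  have e3 : ∑ β ∈ Fintype.piFinset (fun _ : Fin m => Bl),
      (∑ n ∈ I, chi (v n + ∑ i, w n (β i))) ^ 2 =
      ∑ n ∈ I, ∑ n' ∈ I, chi (v n + v n') * (∑ b ∈ Bl, chi (w n b + w n' b)) ^ m := by
    simp_rw [← e1]
    rw [sum_congr rfl (fun n _ => sum_comm), sum_comm]
    apply sum_congr rfl
    intro β _
    rw [sq, sum_mul_sum]
  have hle : ∀ n n', |∑ b ∈ Bl, chi (w n b + w n' b)| ≤ Bl.card := by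
    intro n n'
    refine (abs_sum_le_sum_abs _ _).trans ?_
    simp [abs_chi]
  have hterm : ∀ n ∈ I, ∀ n' ∈ I, chi (v n + v n') * (∑ b ∈ Bl, chi (w n b + w n' b)) ^ m ≤
      (if n < n' + H ∧ n' < n + H then (Bl.card : ℝ) ^ m else 0) + q ^ m := by
    intro n hn n' hn'
    have h1 : chi (v n + v n') * (∑ b ∈ Bl, chi (w n b + w n' b)) ^ m ≤
        |∑ b ∈ Bl, chi (w n b + w n' b)| ^ m := by
      refine (le_abs_self _).trans ?_
      rw [abs_mul, abs_chi, one_mul, abs_pow]
    refine h1.trans ?_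
    split_ifs with h
    · have : |∑ b ∈ Bl, chi (w n b + w n' b)| ^ m ≤ (Bl.card : ℝ) ^ m :=
        pow_le_pow_left₀ (abs_nonneg _) (hle n n') m
      have := pow_nonneg hq m
      linarith
    · rw [zero_add]
      apply pow_le_pow_left₀ (abs_nonneg _)
      rw [not_and_or, not_lt, not_lt] at h
      rcases h with h | h
      · have := hw n' hn' n hn h
        rw [sum_congr rfl (fun b _ => by rw [add_comm])] 
        exact this
      · exact hw n hn n' hn' h
  rw [e3]
  calc ∑ n ∈ I, ∑ n' ∈ I, chi (v n + v n') * (∑ b ∈ Bl, chi (w n b + w n' b)) ^ m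
      ≤ ∑ n ∈ I, ∑ n' ∈ I, ((if n < n' + H ∧ n' < n + H then (Bl.card : ℝ) ^ m else 0) + q ^ m) :=
        sum_le_sum fun n hn => sum_le_sum fun n' hn' => hterm n hn n' hn'
    _ ≤ ∑ n ∈ I, ((2 * H : ℕ) * (Bl.card : ℝ) ^ m + I.card * q ^ m) := by
        apply sum_le_sum
        intro n hn
        rw [sum_add_distrib, sum_const, nsmul_eq_mul]
        gcongr
        rw [← sum_filter, sum_const, nsmul_eq_mul]
        gcongr
        have h1 : I.filter (fun n' => n < n' + H ∧ n' < n + H) ⊆ Ioo (n - H) (n + H) ∪ {n - H} := by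
          intro x hx
          rw [mem_filter] at hx
          rw [mem_union, mem_Ioo, mem_singleton]
          omega
        refine (card_le_card h1).trans ((card_union_le _ _).trans ?_)
        rw [Nat.card_Ioo, card_singleton]
        omega
    _ = _ := by
        rw [sum_const, nsmul_eq_mul]
        push_cast
        ring

end Pool.Agent.J4H40.PB
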