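import Pool.Agent.J4H40.PB.B
set_option autoImplicit false
namespace Pool.Agent.J4H40.PB
open Finset

/-- **Choice of the deleted parts in one block** -/
lemma pick {ι : Type} [DecidableEq ι] (𝒥 : Finset ι) (v : ι → ℕ → ZMod 2) (w : ι → ℕ → ℕ → ZMod 2)
    (M E G L H m : ℕ) (q : ℝ) (hM : 1 ≤ M) (hE : E ≤ 2 * M) (hG : 1 ≤ G) (hL : M ≤ L * G) (hH : 1 ≤ H) (hq : 0 ≤ q)
    (hw : ∀ J ∈ 𝒥, ∀ n n' : ℕ, M < n → n' ≤ E → n + H ≤ n' →
      |∑ b ∈ Ioc M (2 * M), chi (w J n b + w J n' b)| ≤ q * M) :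
    ∃ β : Fin m → ℕ, (∀ i, β i ∈ Ioc M (2 * M)) ∧ ∀ J ∈ 𝒥, ∀ N, M ≤ N → N ≤ E →
      |∑ n ∈ Ioc M N, chi (v J n + ∑ i, w J n (β i))| ≤
        G + √((𝒥.card : ℝ) * (L + 1) * (2 * H * M + (M : ℝ) ^ 2 * q ^ m)) := by
  have hM0 : (0 : ℝ) < M := by exact_mod_cast hM
  have hcard : (Ioc M (2 * M)).card = M := by rw [Nat.card_Ioc]; omega
  set K : ℝ := (𝒥.card : ℝ) * (L + 1) * (2 * H * M + (M : ℝ) ^ 2 * q ^ m) with hK
  set F : ι → ℕ → (Fin m → ℕ) → ℝ := fun J t β =>
    if M + t * G ≤ E then (∑ n ∈ Ioc M (M + t * G), chi (v J n + ∑ i, w J n (β i))) ^ 2 else 0 with hF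
  have hF0 : ∀ J t β, 0 ≤ F J t β := by
    intro J t β
    simp only [hF]
    split_ifs
    · positivity
    · exact le_rfl
  have h1 : ∀ J ∈ 𝒥, ∀ t : ℕ, ∑ β ∈ Fintype.piFinset (fun _ : Fin m => Ioc M (2 * M)), F J t β ≤
      (M : ℝ) ^ m * (2 * H * M + (M : ℝ) ^ 2 * q ^ m) := by
    intro J hJ t
    simp only [hF]
    split_ifs with ht
    · have h2 := second (m := m) (Ioc M (2 * M)) (Ioc M (M + t * G)) (v J) (w J) H (q * M) (by positivity)
        (fun n hn n' hn' h => hw J hJ n n' (mem_Ioc.1 hn).1 ((mem_Ioc.1 hn').2.trans ht) h) hH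
      refine h2.trans ?_
      have h3 : (((Ioc M (M + t * G)).card : ℕ) : ℝ) ≤ M := by
        rw [Nat.card_Ioc]
        have : M + t * G - M ≤ M := by omega
        exact_mod_cast this
      rw [hcard]
      push_cast
      have h4 : (0 : ℝ) ≤ ((Ioc M (M + t * G)).card : ℝ) := by positivity
      calc 2 * (H : ℝ) * ((Ioc M (M + t * G)).card : ℝ) * (M : ℝ) ^ m +
            ((Ioc M (M + t * G)).card : ℝ) ^ 2 * (q * M) ^ m
          ≤ 2 * (H : ℝ) * M * (M : ℝ) ^ m + (M : ℝ) ^ 2 * (q * M) ^ m := by gcongr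
        _ = (M : ℝ) ^ m * (2 * H * M + (M : ℝ) ^ 2 * q ^ m) := by rw [mul_pow]; ring
    · rw [sum_const_zero]
      positivity
  have h2 : ∑ β ∈ Fintype.piFinset (fun _ : Fin m => Ioc M (2 * M)), ∑ J ∈ 𝒥, ∑ t ∈ range (L + 1), F J t β ≤
      ∑ β ∈ Fintype.piFinset (fun _ : Fin m => Ioc M (2 * M)), K := by
    rw [sum_const, nsmul_eq_mul, Fintype.card_piFinset]
    simp only [hcard, prod_const, card_univ, Fintype.card_fin]
    rw [sum_comm]
    calc ∑ J ∈ 𝒥, ∑ β ∈ Fintype.piFinset (fun _ : Fin m => Ioc M (2 * M)), ∑ t ∈ range (L + 1), F J t β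
        ≤ ∑ J ∈ 𝒥, (L + 1) * ((M : ℝ) ^ m * (2 * H * M + (M : ℝ) ^ 2 * q ^ m)) := by
          apply sum_le_sum
          intro J hJ
          rw [sum_comm]
          refine (sum_le_sum fun t _ => h1 J hJ t).trans ?_
          rw [sum_const, nsmul_eq_mul, card_range]
          push_cast
          exact le_rfl
      _ = _ := by
          rw [sum_const, nsmul_eq_mul, hK]
          push_cast
          ring
  have hne : (Fintype.piFinset (fun _ : Fin m => Ioc M (2 * M))).Nonempty :=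
    ⟨fun _ => 2 * M, by rw [Fintype.mem_piFinset]; intro i; rw [mem_Ioc]; omega⟩
  obtain ⟨β, hβ, h3⟩ := exists_le_of_sum_le hne h2
  rw [Fintype.mem_piFinset] at hβ
  refine ⟨β, hβ, ?_⟩
  intro J hJ N hN1 hN2
  set t := (N - M) / G with ht
  have ht1 : t * G ≤ N - M := Nat.div_mul_le_self _ _
  have ht2 : N - M < t * G + G := by
    have := Nat.lt_div_mul_add (a := N - M) (b := G) (by omega)
    exact this
  have ht3 : t ≤ L := by
    have h4 : N - M ≤ L * G := by omega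
    have h5 : t ≤ (L * G) / G := Nat.div_le_div_right h4
    rwa [Nat.mul_div_cancel _ (by omega)] at h5
  have h4 : F J t β ≤ K := by
    have h5 : F J t β ≤ ∑ t ∈ range (L + 1), F J t β :=
      single_le_sum (fun t _ => hF0 J t β) (mem_range.2 (by omega))
    have h6 : ∑ t ∈ range (L + 1), F J t β ≤ ∑ J ∈ 𝒥, ∑ t ∈ range (L + 1), F J t β :=
      single_le_sum (f := fun J => ∑ t ∈ range (L + 1), F J t β)
        (fun J _ => sum_nonneg fun t _ => hF0 J t β) hJ
    linarith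
  simp only [hF] at h4
  rw [if_pos (by omega)] at h4
  have h5 : |∑ n ∈ Ioc M (M + t * G), chi (v J n + ∑ i, w J n (β i))| ≤ √K := Real.abs_le_sqrt h4
  have h6 : ∑ n ∈ Ioc M N, chi (v J n + ∑ i, w J n (β i)) =
      ∑ n ∈ Ioc M (M + t * G), chi (v J n + ∑ i, w J n (β i)) +
      ∑ n ∈ Ioc (M + t * G) N, chi (v J n + ∑ i, w J n (β i)) := by
    exact (Finset.sum_Ioc_consecutive (fun n => chi (v J n + ∑ i, w J n (β i)))
      (by omega : M ≤ M + t * G) (by omega : M + t * G ≤ N)).symm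
  have h7 : |∑ n ∈ Ioc (M + t * G) N, chi (v J n + ∑ i, w J n (β i))| ≤ G := by
    refine (abs_sum_le_sum_abs _ _).trans ?_
    simp only [abs_chi, sum_const, nsmul_eq_mul, mul_one, Nat.card_Ioc]
    have : N - (M + t * G) ≤ G := by omega
    exact_mod_cast this
  rw [h6]
  refine (abs_add_le _ _).trans ?_
  linarith

/-- from a tuple to a set -/
lemma odd_set {m : ℕ} (U : Finset ℕ) (β : Fin m → ℕ) (hβ : ∀ i, β i ∈ U) :
    ∃ D ⊆ U, D.card ≤ m ∧ ∀ f : ℕ → ZMod 2, ∑ d ∈ D, f d = ∑ i, f (β i) := by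
  classical
  refine ⟨U.filter (fun b => Odd ((univ.filter (fun i => β i = b)).card)), filter_subset _ _, ?_, ?_⟩
  · have h1 : U.filter (fun b => Odd ((univ.filter (fun i => β i = b)).card)) ⊆ univ.image β := by
      intro b hb
      rw [mem_filter] at hb
      have h2 : 0 < (univ.filter (fun i => β i = b)).card := hb.2.pos
      obtain ⟨i, hi⟩ := card_pos.1 h2
      rw [mem_image]
      exact ⟨i, mem_univ _, (mem_filter.1 hi).2⟩
    refine (card_le_card h1).trans (card_image_le.trans ?_)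
    simp
  · intro f
    have h1 : ∑ i, f (β i) = ∑ b ∈ U, ∑ i ∈ univ.filter (fun i => β i = b), f (β i) := by
      rw [sum_fiberwise_of_maps_to]
      intro i _
      exact hβ i
    rw [h1, sum_filter]
    apply sum_congr rfl
    intro b _
    have h2 : ∑ i ∈ univ.filter (fun i => β i = b), f (β i) =
        ((univ.filter (fun i => β i = b)).card : ZMod 2) * f b := by
      rw [sum_congr rfl (g := fun _ => f b) (fun i hi => by rw [(mem_filter.1 hi).2]), sum_const, nsmul_eq_mul]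
    rw [h2]
    split_ifs with h
    · have h3 : (((univ.filter (fun i => β i = b)).card : ℕ) : ZMod 2) = 1 := (ZMod.natCast_eq_one_iff_odd).2 h
      rw [h3, one_mul]
    · have h3 : (((univ.filter (fun i => β i = b)).card : ℕ) : ZMod 2) = 0 :=
        (ZMod.natCast_eq_zero_iff_even).2 (Nat.not_odd_iff_even.1 h)
      rw [h3, zero_mul]

end Pool.Agent.J4H40.PB
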