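import Pool.Agent.J4H40.PB.A
import Pool.Agent.J4H40.PB.C
set_option autoImplicit false
namespace Pool.Agent.J4H40.PB
open Finset

/-- sums of signs of patterns -/
noncomputable def T (a : ℕ → ZMod 2) (J : Finset ℕ) (x y : ℕ) : ℝ := ∑ n ∈ Ioc x y, chi (∑ j ∈ J, a (n + j))

/-- the effect of the part `b` -/
noncomputable def wt (a : ℕ → ZMod 2) (J : Finset ℕ) (n b : ℕ) : ZMod 2 :=
  ∑ j ∈ J, if b ≤ n + j then a (n + j - b) else 0

lemma stage (s M G L H m : ℕ) (q : ℝ) (hM : 1 ≤ M) (hsM : s ≤ M) (hG : 1 ≤ G) (hL : M ≤ L * G) (hH : 1 ≤ H) (hq : 0 ≤ q)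
    (B : Set ℕ) (hB : ∀ b ∈ B, b ≤ M)
    (hw : ∀ J ⊆ range s, J.Nonempty → ∀ n n' : ℕ, M < n → n' + s ≤ 2 * M → n + H ≤ n' →
      |∑ b ∈ Ioc M (2 * M), chi (wt (pz B) J n b + wt (pz B) J n' b)| ≤ q * M) :
    ∃ D ⊆ Ioc M (2 * M), D.card ≤ m ∧ ∀ J ⊆ range s, J.Nonempty → ∀ N, M ≤ N → N + s ≤ 2 * M →
      |T (pz (B ∪ (D : Set ℕ))) J M N| ≤ G + √((2 : ℝ) ^ s * (L + 1) * (2 * H * M + (M : ℝ) ^ 2 * q ^ m)) := by
  classical
  set 𝒥 := (range s).powerset.filter (fun J => J.Nonempty) with h𝒥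
  obtain ⟨β, hβ, h1⟩ := pick 𝒥 (fun J n => ∑ j ∈ J, pz B (n + j)) (wt (pz B)) M (2 * M - s) G L H m q hM
    (by omega) hG hL hH hq (fun J hJ n n' h1 h2 h3 => by
      rw [h𝒥, mem_filter, mem_powerset] at hJ
      exact hw J hJ.1 hJ.2 n n' h1 (by omega) h3)
  obtain ⟨D, hD, hDm, hDf⟩ := odd_set (Ioc M (2 * M)) β hβ
  refine ⟨D, hD, hDm, ?_⟩
  intro J hJ hJn N hN1 hN2
  have hJ' : J ∈ 𝒥 := by rw [h𝒥, mem_filter, mem_powerset]; exact ⟨hJ, hJn⟩
  have h2 := h1 J hJ' N hN1 (by omega)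
  have h3 : T (pz (B ∪ (D : Set ℕ))) J M N =
      ∑ n ∈ Ioc M N, chi (∑ j ∈ J, pz B (n + j) + ∑ i, wt (pz B) J n (β i)) := by
    unfold T
    apply sum_congr rfl
    intro n hn
    rw [mem_Ioc] at hn
    congr 1
    rw [← hDf (fun b => wt (pz B) J n b)]
    unfold wt
    rw [sum_comm, ← sum_add_distrib]
    apply sum_congr rfl
    intro j hj
    have hj' := mem_range.1 (hJ hj)
    rw [pz_union B M hB D (fun d hd => (mem_Ioc.1 (hD hd)).1) (n + j) (by omega)]
  rw [h3]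
  refine h2.trans ?_
  gcongr
  have h4 : 𝒥.card ≤ 2 ^ s := by
    refine (card_filter_le _ _).trans ?_
    rw [card_powerset, card_range]
  exact_mod_cast h4

lemma rest_bound (U S : Finset ℕ) (hS : S ⊆ U) (g : ℕ → ZMod 2) :
    |∑ b ∈ U, chi (g b)| ≤ |∑ b ∈ S, chi (g b)| + ((U.card : ℝ) - S.card) := by
  classical
  rw [← sum_sdiff hS]
  have h1 : |∑ b ∈ U \ S, chi (g b)| ≤ (U.card : ℝ) - S.card := by
    refine (abs_sum_le_sum_abs _ _).trans ?_
    simp only [abs_chi, sum_const, nsmul_eq_mul, mul_one]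
    rw [card_sdiff_of_subset hS, Nat.cast_sub (card_le_card hS)]
  refine (abs_add_le _ _).trans ?_
  linarith

/-- kick start: both signs occur -/
lemma kick (s M : ℕ) (B : Set ℕ) (J : Finset ℕ) (hJ : J ⊆ range s) (hJn : J.Nonempty)
    (n n' : ℕ) (h1 : M < n) (h2 : n' + s ≤ 2 * M) (h3 : n + 1 ≤ n') :
    |∑ b ∈ Ioc M (2 * M), chi (wt (pz B) J n b + wt (pz B) J n' b)| ≤ (1 - 2 / (M : ℝ)) * M := by
  classical
  obtain ⟨jm, hjm, hmax⟩ := J.exists_max_image id hJn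
  have hjs := mem_range.1 (hJ hjm)
  simp only [id] at hmax
  have hne : n' + jm ≠ 2 * M := by omega
  have hS : ({n' + jm, 2 * M} : Finset ℕ) ⊆ Ioc M (2 * M) := by
    intro x hx
    rw [mem_insert, mem_singleton] at hx
    rw [mem_Ioc]
    omega
  have h4 := rest_bound _ _ hS (fun b => wt (pz B) J n b + wt (pz B) J n' b)
  have e1 : wt (pz B) J n (n' + jm) = 0 := by
    unfold wt
    apply sum_eq_zero
    intro j hj
    have := hmax j hj
    rw [if_neg (by omega)]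
  have e2 : wt (pz B) J n' (n' + jm) = 1 := by
    unfold wt
    rw [sum_eq_single jm]
    · rw [if_pos le_rfl, Nat.sub_self]
      unfold pz
      rw [pn_zero, Nat.cast_one]
    · intro j hj hne
      have := hmax j hj
      rw [if_neg (by omega)]
    · intro h; exact absurd hjm h
  have e3 : wt (pz B) J n (2 * M) = 0 := by
    unfold wt
    apply sum_eq_zero
    intro j hj
    have := mem_range.1 (hJ hj)
    rw [if_neg (by omega)]
  have e4 : wt (pz B) J n' (2 * M) = 0 := by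
    unfold wt
    apply sum_eq_zero
    intro j hj
    have := mem_range.1 (hJ hj)
    rw [if_neg (by omega)]
  have e5 : ∑ b ∈ ({n' + jm, 2 * M} : Finset ℕ), chi (wt (pz B) J n b + wt (pz B) J n' b) = 0 := by
    rw [sum_pair hne, e1, e2, e3, e4]
    simp [chi]
  rw [e5, card_pair hne] at h4
  have hM0 : (M : ℝ) ≠ 0 := by
    have : 0 < M := by omega
    positivity
  have h5 : (1 - 2 / (M : ℝ)) * M = M - 2 := by field_simp
  rw [h5]
  refine h4.trans ?_
  rw [Nat.card_Ioc, show 2 * M - M = M by omega]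
  simp

/-- the case of balanced values -/
lemma balanced (s M H : ℕ) (B : Set ℕ) (J : Finset ℕ) (hJ : J ⊆ range s)
    (hM : 1 ≤ M) (hsH : s ≤ H)
    (hyp : ∀ x : ℕ, H - s ≤ x → x + s ≤ M → |∑ i ∈ range x, chi (∑ j ∈ J, pz B (i + j))| ≤ x / 2)
    (n n' : ℕ) (h1 : M < n) (h2 : n' + s ≤ 2 * M) (h3 : n + H ≤ n') (hs : 1 ≤ s) :
    |∑ b ∈ Ioc M (2 * M), chi (wt (pz B) J n b + wt (pz B) J n' b)| ≤
      (1 - ((H : ℝ) - s) / (2 * M)) * M := by
  classical
  have hS : Icc (n + s) n' ⊆ Ioc M (2 * M) := by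
    intro x hx
    rw [mem_Icc] at hx
    rw [mem_Ioc]
    omega
  have h4 := rest_bound _ _ hS (fun b => wt (pz B) J n b + wt (pz B) J n' b)
  set x := n' + 1 - (n + s) with hx
  have e1 : ∑ b ∈ Icc (n + s) n', chi (wt (pz B) J n b + wt (pz B) J n' b) =
      ∑ i ∈ range x, chi (∑ j ∈ J, pz B (i + j)) := by
    refine sum_bij' (fun b _ => n' - b) (fun i _ => n' - i) ?_ ?_ ?_ ?_ ?_
    · intro b hb; rw [mem_Icc] at hb; rw [mem_range]; omega
    · intro i hi; rw [mem_range] at hi; rw [mem_Icc]; omega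
    · intro b hb; rw [mem_Icc] at hb; omega
    · intro i hi; rw [mem_range] at hi; omega
    · intro b hb
      rw [mem_Icc] at hb
      congr 1
      have e2 : wt (pz B) J n b = 0 := by
        unfold wt
        apply sum_eq_zero
        intro j hj
        have := mem_range.1 (hJ hj)
        rw [if_neg (by omega)]
      rw [e2, zero_add]
      unfold wt
      apply sum_congr rfl
      intro j _
      rw [if_pos (by omega)]
      congr 1
      omega
  have h5 := hyp x (by omega) (by omega)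
  have h6 : ((Icc (n + s) n').card : ℝ) = x := by rw [Nat.card_Icc]
  have h7 : ((Ioc M (2 * M)).card : ℝ) = M := by rw [Nat.card_Ioc, show 2 * M - M = M by omega]
  rw [e1, h6, h7] at h4
  have hM0 : (M : ℝ) ≠ 0 := by positivity
  have h8 : (1 - ((H : ℝ) - s) / (2 * M)) * M = M - ((H : ℝ) - s) / 2 := by field_simp
  rw [h8]
  have h9 : (H : ℝ) - s ≤ x := by
    have : H ≤ x + s := by omega
    have : (H : ℝ) ≤ ((x + s : ℕ) : ℝ) := by exact_mod_cast this
    push_cast at this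
    linarith
  linarith

end Pool.Agent.J4H40.PB
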