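import Pool.Agent.J4H40.PB.D
set_option autoImplicit false
namespace Pool.Agent.J4H40.PB
open Finset

/-- all patterns of length `s` are balanced in the block `(2^k, 2^(k+1)]` -/
def Qual (s : ℕ) (B : Set ℕ) (k : ℕ) (δ : ℝ) : Prop :=
  ∀ J ⊆ range s, J.Nonempty → ∀ N, 2 ^ k ≤ N → N + s ≤ 2 ^ (k + 1) → |T (pz B) J (2 ^ k) N| ≤ δ * 2 ^ k

/-- all patterns are balanced from `0` on at the scale `2^(k-h)` -/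
def Hyp (s : ℕ) (B : Set ℕ) (k h : ℕ) : Prop :=
  ∀ J ⊆ range s, J.Nonempty → ∀ x : ℕ, 2 ^ (k - h) - s ≤ x → x + s ≤ 2 ^ k →
    |∑ i ∈ range x, chi (∑ j ∈ J, pz B (i + j))| ≤ x / 2

lemma exists_small (δ : ℝ) (hδ : 0 < δ) : ∃ g : ℕ, (1 / 2 : ℝ) ^ g ≤ δ := by
  obtain ⟨g, hg⟩ := exists_pow_lt_of_lt_one hδ (by norm_num : (1 / 2 : ℝ) < 1)
  exact ⟨g, hg.le⟩

lemma E1 (s : ℕ) (δ : ℝ) (hδ : 0 < δ) : ∃ K : ℕ, ∀ k ≥ K, ∀ B : Set ℕ, (∀ b ∈ B, b ≤ 2 ^ k) →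
    ∃ D ⊆ Ioc (2 ^ k) (2 ^ (k + 1)), Qual s (B ∪ (D : Set ℕ)) k δ := by
  obtain ⟨g, hg⟩ := exists_small (δ / 2) (by linarith)
  obtain ⟨K1, hK1⟩ := exists_nat_gt (3 * 2 ^ s * (2 ^ g + 1) * 4 / δ ^ 2)
  refine ⟨K1 + g + s + 1, fun k hk B hB => ?_⟩
  have hkk : k < 2 ^ k := Nat.lt_two_pow_self
  have hM1 : 1 ≤ 2 ^ k := Nat.one_le_two_pow
  have hM0 : (0 : ℝ) < 2 ^ k := by positivity
  have hM2 : 2 ≤ 2 ^ k := by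
    calc 2 = 2 ^ 1 := by norm_num
      _ ≤ 2 ^ k := Nat.pow_le_pow_right (by norm_num) (by omega)
  have hM2' : (2 : ℝ) ≤ 2 ^ k := by exact_mod_cast hM2
  have hq0 : (0 : ℝ) ≤ 1 - 2 / ((2 ^ k : ℕ) : ℝ) := by
    rw [sub_nonneg, div_le_one (by positivity)]
    push_cast
    exact hM2'
  have hq1 : 1 - 2 / ((2 ^ k : ℕ) : ℝ) < 1 := by
    have : (0 : ℝ) < 2 / ((2 ^ k : ℕ) : ℝ) := by positivity
    linarith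
  obtain ⟨m, hm⟩ := exists_pow_lt_of_lt_one (show (0 : ℝ) < 1 / 2 ^ k by positivity) hq1
  obtain ⟨D, hD, -, h1⟩ := stage s (2 ^ k) (2 ^ (k - g)) (2 ^ g) 1 m (1 - 2 / ((2 ^ k : ℕ) : ℝ)) hM1 (by omega)
    Nat.one_le_two_pow (by rw [← pow_add]; exact Nat.pow_le_pow_right (by norm_num) (by omega)) le_rfl hq0 B hB
    (fun J hJ hJn n n' a1 a2 a3 => kick s (2 ^ k) B J hJ hJn n n' a1 a2 a3)
  have e0 : 2 * 2 ^ k = 2 ^ (k + 1) := by ring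
  refine ⟨D, by rwa [e0] at hD, ?_⟩
  intro J hJ hJn N hN1 hN2
  have h2 := h1 J hJ hJn N hN1 (by omega)
  refine h2.trans ?_
  have e1 : (((2 ^ (k - g) : ℕ) : ℝ)) = (1 / 2) ^ g * 2 ^ k := by
    push_cast
    have : (2 : ℝ) ^ k = 2 ^ (k - g) * 2 ^ g := by rw [← pow_add]; congr 1; omega
    rw [this, div_pow, one_pow]
    field_simp
  have h3 : (((2 ^ (k - g) : ℕ) : ℝ)) ≤ δ / 2 * 2 ^ k := by
    rw [e1]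
    gcongr
  have h4 : √((2 : ℝ) ^ s * (((2 ^ g : ℕ) : ℝ) + 1) * (2 * ((1 : ℕ) : ℝ) * ((2 ^ k : ℕ) : ℝ) +
      (((2 ^ k : ℕ) : ℝ)) ^ 2 * (1 - 2 / ((2 ^ k : ℕ) : ℝ)) ^ m)) ≤ δ / 2 * 2 ^ k := by
    rw [Real.sqrt_le_left (by positivity)]
    have h5 : (((2 ^ k : ℕ) : ℝ)) ^ 2 * (1 - 2 / ((2 ^ k : ℕ) : ℝ)) ^ m ≤ 2 ^ k := by
      calc (((2 ^ k : ℕ) : ℝ)) ^ 2 * (1 - 2 / ((2 ^ k : ℕ) : ℝ)) ^ m
          ≤ (((2 ^ k : ℕ) : ℝ)) ^ 2 * (1 / 2 ^ k) := by gcongr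
        _ = 2 ^ k := by push_cast; field_simp
    have h6 : 3 * 2 ^ s * (2 ^ g + 1) * 4 / δ ^ 2 ≤ (2 : ℝ) ^ k := by
      have h7 : (K1 : ℝ) ≤ k := by exact_mod_cast (by omega : K1 ≤ k)
      have h8 : (k : ℝ) ≤ 2 ^ k := by exact_mod_cast hkk.le
      linarith
    rw [div_le_iff₀ (by positivity)] at h6
    have h9 : (2 : ℝ) ^ s * (((2 ^ g : ℕ) : ℝ) + 1) * (2 * ((1 : ℕ) : ℝ) * ((2 ^ k : ℕ) : ℝ) +
      (((2 ^ k : ℕ) : ℝ)) ^ 2 * (1 - 2 / ((2 ^ k : ℕ) : ℝ)) ^ m) ≤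
        (2 : ℝ) ^ s * (2 ^ g + 1) * (3 * 2 ^ k) := by
      push_cast at h5 ⊢
      gcongr
      linarith
    refine h9.trans ?_
    nlinarith [mul_le_mul_of_nonneg_right h6 hM0.le]
  linarith

lemma E2 (s : ℕ) (hs : 1 ≤ s) (δ : ℝ) (hδ : 0 < δ) : ∃ h m K : ℕ, ∀ k ≥ K, ∀ B : Set ℕ, (∀ b ∈ B, b ≤ 2 ^ k) →
    Hyp s B k h → ∀ m' ≥ m,
    ∃ D ⊆ Ioc (2 ^ k) (2 ^ (k + 1)), D.card ≤ m' ∧ Qual s (B ∪ (D : Set ℕ)) k δ := by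
  obtain ⟨g, hg⟩ := exists_small (δ / 2) (by linarith)
  obtain ⟨h, hh⟩ := exists_small (δ ^ 2 / (16 * 2 ^ s * (2 ^ g + 1))) (by positivity)
  have hq1 : (1 : ℝ) - (1 / 2) ^ (h + 2) < 1 := by
    have : (0 : ℝ) < (1 / 2) ^ (h + 2) := by positivity
    linarith
  have hq0 : (0 : ℝ) ≤ 1 - (1 / 2) ^ (h + 2) := by
    have : ((1 : ℝ) / 2) ^ (h + 2) ≤ 1 := pow_le_one₀ (by norm_num) (by norm_num)
    linarith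
  obtain ⟨m, hm⟩ := exists_pow_lt_of_lt_one (show (0 : ℝ) < δ ^ 2 / (8 * 2 ^ s * (2 ^ g + 1)) by positivity) hq1
  refine ⟨h, m, h + g + 2 * s + 2, fun k hk B hB hyp m' hm' => ?_⟩
  have hkk : k < 2 ^ k := Nat.lt_two_pow_self
  have hkh : k - h < 2 ^ (k - h) := Nat.lt_two_pow_self
  have hM1 : 1 ≤ 2 ^ k := Nat.one_le_two_pow
  have hM0 : (0 : ℝ) < 2 ^ k := by positivity
  have eH : ((2 ^ (k - h) : ℕ) : ℝ) = (1 / 2) ^ h * 2 ^ k := by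
    push_cast
    have : (2 : ℝ) ^ k = 2 ^ (k - h) * 2 ^ h := by rw [← pow_add]; congr 1; omega
    rw [this, div_pow, one_pow]
    field_simp
  have hsH : (s : ℝ) ≤ ((2 ^ (k - h) : ℕ) : ℝ) / 2 := by
    have h1 : 2 * s ≤ 2 ^ (k - h) := by omega
    have h2 : ((2 * s : ℕ) : ℝ) ≤ ((2 ^ (k - h) : ℕ) : ℝ) := by exact_mod_cast h1
    push_cast at h2 ⊢
    linarith
  set q : ℝ := 1 - (((2 ^ (k - h) : ℕ) : ℝ) - s) / (2 * ((2 ^ k : ℕ) : ℝ)) with hqdef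
  have hqle : q ≤ 1 - (1 / 2) ^ (h + 2) := by
    have h1 : (1 / 2 : ℝ) ^ (h + 2) ≤ (((2 ^ (k - h) : ℕ) : ℝ) - s) / (2 * ((2 ^ k : ℕ) : ℝ)) := by
      rw [le_div_iff₀ (by positivity)]
      have h2 : (1 / 2 : ℝ) ^ (h + 2) * (2 * ((2 ^ k : ℕ) : ℝ)) = ((2 ^ (k - h) : ℕ) : ℝ) / 2 := by
        rw [eH, pow_add]
        push_cast
        ring
      rw [h2]
      linarith
    rw [hqdef]
    linarith
  have hqge : 0 ≤ q := by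
    rw [hqdef, sub_nonneg, div_le_one (by positivity)]
    have h1 : ((2 ^ (k - h) : ℕ) : ℝ) ≤ ((2 ^ k : ℕ) : ℝ) := by
      exact_mod_cast Nat.pow_le_pow_right (by norm_num) (by omega)
    have h2 : (0 : ℝ) ≤ s := by positivity
    have h3 : (0 : ℝ) ≤ ((2 ^ k : ℕ) : ℝ) := by positivity
    linarith
  obtain ⟨D, hD, hDc, h1⟩ := stage s (2 ^ k) (2 ^ (k - g)) (2 ^ g) (2 ^ (k - h)) m' q hM1 (by omega)
    Nat.one_le_two_pow (by rw [← pow_add]; exact Nat.pow_le_pow_right (by norm_num) (by omega))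
    Nat.one_le_two_pow hqge B hB
    (fun J hJ hJn n n' a1 a2 a3 => balanced s (2 ^ k) (2 ^ (k - h)) B J hJ hM1 (by omega) (hyp J hJ hJn) n n' a1 a2 a3 hs)
  have e0 : 2 * 2 ^ k = 2 ^ (k + 1) := by ring
  refine ⟨D, by rwa [e0] at hD, hDc, ?_⟩
  intro J hJ hJn N hN1 hN2
  have h2 := h1 J hJ hJn N hN1 (by omega)
  refine h2.trans ?_
  have e1 : (((2 ^ (k - g) : ℕ) : ℝ)) = (1 / 2) ^ g * 2 ^ k := by
    push_cast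
    have : (2 : ℝ) ^ k = 2 ^ (k - g) * 2 ^ g := by rw [← pow_add]; congr 1; omega
    rw [this, div_pow, one_pow]
    field_simp
  have h3 : (((2 ^ (k - g) : ℕ) : ℝ)) ≤ δ / 2 * 2 ^ k := by
    rw [e1]
    gcongr
  have h4 : √((2 : ℝ) ^ s * (((2 ^ g : ℕ) : ℝ) + 1) * (2 * ((2 ^ (k - h) : ℕ) : ℝ) * ((2 ^ k : ℕ) : ℝ) +
      (((2 ^ k : ℕ) : ℝ)) ^ 2 * q ^ m')) ≤ δ / 2 * 2 ^ k := by
    rw [Real.sqrt_le_left (by positivity)]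
    have h5 : q ^ m' ≤ δ ^ 2 / (8 * 2 ^ s * (2 ^ g + 1)) := by
      calc q ^ m' ≤ (1 - (1 / 2) ^ (h + 2)) ^ m' := pow_le_pow_left₀ hqge hqle _
        _ ≤ (1 - (1 / 2) ^ (h + 2)) ^ m := pow_le_pow_of_le_one hq0 hq1.le hm'
        _ ≤ _ := hm.le
    have h6 : (2 : ℝ) ^ s * (((2 ^ g : ℕ) : ℝ) + 1) * (2 * ((2 ^ (k - h) : ℕ) : ℝ) * ((2 ^ k : ℕ) : ℝ) +
      (((2 ^ k : ℕ) : ℝ)) ^ 2 * q ^ m') ≤
        (2 : ℝ) ^ s * (2 ^ g + 1) * (2 * (δ ^ 2 / (16 * 2 ^ s * (2 ^ g + 1)) * 2 ^ k) * 2 ^ k +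
          (2 ^ k) ^ 2 * (δ ^ 2 / (8 * 2 ^ s * (2 ^ g + 1)))) := by
      rw [eH]
      push_cast
      gcongr
    refine h6.trans (le_of_eq ?_)
    field_simp
    ring
  linarith

end Pool.Agent.J4H40.PB
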