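import Pool.Agent.J4H40.PB.E
set_option autoImplicit false
namespace Pool.Agent.J4H40.PB
open Finset Filter Topology

lemma T_abs (a : ℕ → ZMod 2) (J : Finset ℕ) (x y : ℕ) : |T a J x y| ≤ ((y - x : ℕ) : ℝ) := by
  unfold T
  refine (abs_sum_le_sum_abs _ _).trans ?_
  simp [abs_chi]

lemma T_split (a : ℕ → ZMod 2) (J : Finset ℕ) {x y z : ℕ} (h1 : x ≤ y) (h2 : y ≤ z) :
    T a J x z = T a J x y + T a J y z := by
  unfold T
  exact (Finset.sum_Ioc_consecutive _ h1 h2).symm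

lemma sumQ (s K0 k : ℕ) (δ : ℝ) (hδ : 0 ≤ δ) (B : Set ℕ) (hQ : ∀ l, K0 ≤ l → l < k → Qual s B l δ)
    (J : Finset ℕ) (hJ : J ⊆ range s) (hJn : J.Nonempty) :
    ∀ l, K0 ≤ l → l ≤ k → ∀ y, 2 ^ K0 ≤ y → y ≤ 2 ^ l → |T (pz B) J (2 ^ K0) y| ≤ δ * 2 ^ l + l * s := by
  intro l hl
  induction l, hl using Nat.le_induction with
  | base =>
    intro _ y h1 h2
    have : y = 2 ^ K0 := le_antisymm h2 h1
    subst this
    have e : T (pz B) J (2 ^ K0) (2 ^ K0) = 0 := by simp [T]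
    rw [e, abs_zero]
    positivity
  | succ l hl ih =>
    intro hlk y h1 h2
    have hpow : 2 ^ (l + 1) = 2 * 2 ^ l := by ring
    have hpow' : (2 : ℝ) ^ (l + 1) = 2 * 2 ^ l := by ring
    have hp0 : (0 : ℝ) < 2 ^ l := by positivity
    have hs0 : (0 : ℝ) ≤ s := by positivity
    have hKl : 2 ^ K0 ≤ 2 ^ l := Nat.pow_le_pow_right (by norm_num) hl
    rcases Nat.lt_or_ge (2 ^ l) y with hy | hy
    · have h3 := ih (by omega) (2 ^ l) hKl le_rfl
      rw [T_split _ _ hKl hy.le]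
      have h4 : |T (pz B) J (2 ^ l) y| ≤ δ * 2 ^ l + s := by
        rcases Nat.lt_or_ge (2 ^ l) s with hs | hs
        · refine (T_abs _ _ _ _).trans ?_
          have h5 : ((y - 2 ^ l : ℕ) : ℝ) ≤ s := by
            have : y - 2 ^ l ≤ s := by omega
            exact_mod_cast this
          have : 0 ≤ δ * 2 ^ l := by positivity
          linarith
        · set N := min y (2 ^ (l + 1) - s) with hN
          have hN1 : 2 ^ l ≤ N := by omega
          have hN2 : N + s ≤ 2 ^ (l + 1) := by omega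
          have hN3 : N ≤ y := by omega
          have h5 := hQ l hl (by omega) J hJ hJn N hN1 hN2
          rw [T_split _ _ hN1 hN3]
          refine (abs_add_le _ _).trans ?_
          have h6 := T_abs (pz B) J N y
          have h7 : ((y - N : ℕ) : ℝ) ≤ s := by
            have : y - N ≤ s := by omega
            exact_mod_cast this
          linarith
      refine (abs_add_le _ _).trans ?_
      rw [hpow']
      push_cast
      nlinarith
    · have h3 := ih (by omega) y h1 hy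
      rw [hpow']
      push_cast
      nlinarith [mul_nonneg hδ hp0.le]

lemma sumR (s K0 k : ℕ) (δ : ℝ) (hδ : 0 ≤ δ) (B : Set ℕ) (hQ : ∀ l, K0 ≤ l → l < k → Qual s B l δ)
    (J : Finset ℕ) (hJ : J ⊆ range s) (hJn : J.Nonempty) (x : ℕ) (hx : x ≤ 2 ^ k) :
    |∑ i ∈ range x, chi (∑ j ∈ J, pz B (i + j))| ≤ 2 ^ K0 + 1 + 2 * δ * x + k * s := by
  have hk0 : (0 : ℝ) ≤ k * s := by positivity
  have hdx : (0 : ℝ) ≤ 2 * δ * x := by positivity
  rcases Nat.lt_or_ge (2 ^ K0 + 1) x with h | h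
  · set y := x - 1 with hy
    have e1 : ∑ i ∈ range x, chi (∑ j ∈ J, pz B (i + j)) =
        ∑ i ∈ range (2 ^ K0 + 1), chi (∑ j ∈ J, pz B (i + j)) + T (pz B) J (2 ^ K0) y := by
      unfold T
      have e2 : Ioc (2 ^ K0) y = Ico (2 ^ K0 + 1) x := by
        ext z
        rw [mem_Ioc, mem_Ico]
        have hp : 0 < 2 ^ K0 := by positivity
        omega
      rw [e2, sum_range_add_sum_Ico _ h.le]
    rw [e1]
    have h1 : |∑ i ∈ range (2 ^ K0 + 1), chi (∑ j ∈ J, pz B (i + j))| ≤ 2 ^ K0 + 1 := by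
      refine (abs_sum_le_sum_abs _ _).trans ?_
      simp [abs_chi]
    set l := Nat.clog 2 y with hl
    have h2 : y ≤ 2 ^ l := Nat.le_pow_clog (by norm_num) y
    have h3 : 2 ^ (l - 1) < y := Nat.pow_pred_clog_lt_self (by norm_num) (by
      have : 1 ≤ 2 ^ K0 := Nat.one_le_two_pow
      omega)
    have h4 : l ≤ k := (Nat.clog_le_iff_le_pow (by norm_num)).2 (by omega)
    have h5 : K0 ≤ l := by
      by_contra hc
      push Not at hc
      have : 2 ^ l ≤ 2 ^ K0 := Nat.pow_le_pow_right (by norm_num) hc.le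
      omega
    have h6 := sumQ s K0 k δ hδ B hQ J hJ hJn l h5 h4 y (by omega) h2
    have h7 : (2 : ℝ) ^ l ≤ 2 * x := by
      have h8 : 2 ^ l ≤ 2 * x := by
        rcases Nat.eq_zero_or_pos l with h9 | h9
        · have h10 : 0 < 2 ^ K0 := by positivity
          rw [h9, pow_zero]; omega
        · have : 2 ^ l = 2 * 2 ^ (l - 1) := by
            rw [← pow_succ']; congr 1; omega
          omega
      exact_mod_cast h8
    have h8 : (l : ℝ) * s ≤ k * s := by gcongr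
    refine (abs_add_le _ _).trans ?_
    nlinarith [mul_le_mul_of_nonneg_left h7 hδ]
  · refine (abs_sum_le_sum_abs _ _).trans ?_
    simp only [abs_chi, sum_const, card_range, nsmul_eq_mul, mul_one]
    have : (x : ℝ) ≤ 2 ^ K0 + 1 := by exact_mod_cast h
    linarith

lemma lin_pow (C : ℝ) (h : ℕ) : ∃ K : ℕ, ∀ k ≥ K, C * k ≤ 2 ^ (k - h) := by
  have h1 := tendsto_pow_const_div_const_pow_of_one_lt 1 (show (1 : ℝ) < 2 by norm_num)
  have h2 : ∀ᶠ k : ℕ in atTop, (k : ℝ) ^ 1 / 2 ^ k < (1 / 2) ^ h / (|C| + 1) :=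
    h1.eventually_lt_const (by positivity)
  obtain ⟨K, hK⟩ := eventually_atTop.1 h2
  refine ⟨K + h, fun k hk => ?_⟩
  have h3 := hK k (by omega)
  rw [pow_one, div_lt_div_iff₀ (by positivity) (by positivity)] at h3
  have h4 : (1 / 2 : ℝ) ^ h * 2 ^ k = 2 ^ (k - h) := by
    have : (2 : ℝ) ^ k = 2 ^ (k - h) * 2 ^ h := by rw [← pow_add]; congr 1; omega
    rw [this, div_pow, one_pow]
    field_simp
  rw [h4] at h3
  have h5 : C * k ≤ k * (|C| + 1) := by
    have := le_abs_self C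
    have hk0 : (0 : ℝ) ≤ k := by positivity
    nlinarith
  linarith

lemma E3 (s K0 h : ℕ) : ∃ K : ℕ, ∀ k ≥ K, ∀ B : Set ℕ,
    (∀ l, K0 ≤ l → l < k → Qual s B l (1 / 16)) → Hyp s B k h := by
  obtain ⟨K, hK⟩ := lin_pow (3 * (2 ^ K0 + 1 + s) + s) h
  refine ⟨K + 1, fun k hk B hQ => ?_⟩
  intro J hJ hJn x hx1 hx2
  have h1 := sumR s K0 k (1 / 16) (by norm_num) B hQ J hJ hJn x (by omega)
  have h2 := hK k (by omega)
  have h3 : (2 : ℝ) ^ (k - h) ≤ x + s := by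
    have : 2 ^ (k - h) ≤ x + s := by omega
    exact_mod_cast this
  have hk1 : (1 : ℝ) ≤ k := by exact_mod_cast (by omega : 1 ≤ k)
  have hs0 : (0 : ℝ) ≤ s := by positivity
  have hp0 : (0 : ℝ) < 2 ^ K0 := by positivity
  have h4 : (s : ℝ) ≤ s * k := by nlinarith
  have h5 : (2 : ℝ) ^ K0 + 1 ≤ (2 ^ K0 + 1) * k := by nlinarith
  nlinarith

/-- decay of the correlations along all of `ℕ` -/
lemma E4 (s : ℕ) (B : Set ℕ) (hQ : ∀ δ : ℝ, 0 < δ → ∃ K : ℕ, ∀ l ≥ K, Qual s B l δ)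
    (J : Finset ℕ) (hJ : J ⊆ range s) (hJn : J.Nonempty) (ε : ℝ) (hε : 0 < ε) :
    ∃ X₀ : ℕ, ∀ X ≥ X₀, |∑ i ∈ range X, chi (∑ j ∈ J, pz B (i + j))| ≤ ε * X := by
  obtain ⟨K0, hK0⟩ := hQ (ε / 8) (by positivity)
  obtain ⟨K1, hK1⟩ := lin_pow (8 * s / ε) 0
  obtain ⟨X1, hX1⟩ := exists_nat_gt ((2 ^ K0 + 1) * 4 / ε)
  refine ⟨X1 + 2 ^ (K1 + 1), fun X hX => ?_⟩
  have hX0 : X ≠ 0 := by have : 1 ≤ 2 ^ (K1 + 1) := Nat.one_le_two_pow; omega
  set k := Nat.log 2 X + 1 with hk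
  have h1 : X < 2 ^ k := Nat.lt_pow_succ_log_self (by norm_num) X
  have h2 : 2 ^ (k - 1) ≤ X := Nat.pow_log_le_self 2 hX0
  have h3 := sumR s K0 k (ε / 8) (by positivity) B (fun l hl _ => hK0 l hl) J hJ hJn X h1.le
  have h4 : K1 < k := by
    by_contra hc
    push Not at hc
    have : 2 ^ k ≤ 2 ^ (K1 + 1) := Nat.pow_le_pow_right (by norm_num) (by omega)
    omega
  have h5 := hK1 k h4.le
  have h6 : (2 : ℝ) ^ (k - 0) ≤ 2 * X := by
    have : 2 ^ (k - 0) = 2 * 2 ^ (k - 1) := by rw [← pow_succ']; congr 1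
    have h7 : 2 ^ (k - 0) ≤ 2 * X := by omega
    exact_mod_cast h7
  have h7 : (k : ℝ) * s ≤ ε / 4 * X := by
    have h8 : 8 * (s : ℝ) / ε * k ≤ 2 * X := h5.trans h6
    rw [div_mul_eq_mul_div, div_le_iff₀ hε] at h8
    linarith
  have h8 : (2 : ℝ) ^ K0 + 1 ≤ ε / 4 * X := by
    have h9 : (X1 : ℝ) ≤ X := by exact_mod_cast le_trans (Nat.le_add_right _ _) hX
    have h10 : (2 ^ K0 + 1) * 4 / ε ≤ (X : ℝ) := by linarith
    rw [div_le_iff₀ hε] at h10
    linarith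
  have h9 : 0 ≤ ε * X := by positivity
  linarith

end Pool.Agent.J4H40.PB
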