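import Pool.Agent.J4H40.PB.F
set_option autoImplicit false
namespace Pool.Agent.J4H40.PB
open Finset Filter Topology

lemma Qual_mono {s : ℕ} {B : Set ℕ} {k : ℕ} {δ δ' : ℝ} (h : δ ≤ δ') (hq : Qual s B k δ) : Qual s B k δ' :=
  fun J hJ hJn N h1 h2 => (hq J hJ hJn N h1 h2).trans (by gcongr)

lemma Qual_congr {s : ℕ} {B C : Set ℕ} {k : ℕ} {δ : ℝ} (h : ∀ i ≤ 2 ^ (k + 1), i ∈ B ↔ i ∈ C)
    (hq : Qual s B k δ) : Qual s C k δ := by
  intro J hJ hJn N h1 h2
  have e : T (pz C) J (2 ^ k) N = T (pz B) J (2 ^ k) N := by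
    unfold T
    apply sum_congr rfl
    intro n hn
    rw [mem_Ioc] at hn
    congr 1
    apply sum_congr rfl
    intro j hj
    have := mem_range.1 (hJ hj)
    exact (pz_congr fun i hi => h i (by omega)).symm
  rw [e]
  exact hq J hJ hJn N h1 h2

/-- **One step of the construction**, with the thresholds `W r` for the quality `1 / (r + 1)`. -/
lemma good_exists (s : ℕ) (hs : 1 ≤ s) (φ : ℕ → ℕ) (hφ : Tendsto φ atTop atTop) (N₀ : ℕ) :
    ∃ k0 : ℕ, N₀ ≤ k0 ∧ ∃ W : ℕ → ℕ, ∀ k ≥ k0, ∀ B : Set ℕ, (∀ b ∈ B, b ≤ 2 ^ k) →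
      (∀ l, k0 ≤ l → l < k → Qual s B l (1 / 16)) →
      ∃ D ⊆ Ioc (2 ^ k) (2 ^ (k + 1)), Qual s (B ∪ (D : Set ℕ)) k (1 / 16) ∧
        (max (W 15) 15 ≤ k → D.card ≤ φ k ∧
          ∀ r ≤ k, W r ≤ k → Qual s (B ∪ (D : Set ℕ)) k (1 / ((r : ℝ) + 1))) := by
  classical
  obtain ⟨K1, hK1⟩ := E1 s (1 / 16) (by norm_num)
  set k0 := max K1 N₀ with hk0
  refine ⟨k0, le_max_right _ _, ?_⟩
  have h1 : ∀ r : ℕ, ∃ W : ℕ, ∀ k ≥ W, ∀ B : Set ℕ, (∀ b ∈ B, b ≤ 2 ^ k) →
      (∀ l, k0 ≤ l → l < k → Qual s B l (1 / 16)) →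
      ∃ D ⊆ Ioc (2 ^ k) (2 ^ (k + 1)), D.card ≤ φ k ∧ Qual s (B ∪ (D : Set ℕ)) k (1 / ((r : ℝ) + 1)) := by
    intro r
    obtain ⟨h, m, K, hK⟩ := E2 s hs (1 / ((r : ℝ) + 1)) (by positivity)
    obtain ⟨K', hK'⟩ := E3 s k0 h
    obtain ⟨K'', hK''⟩ := (hφ.eventually_ge_atTop m).exists_forall_of_atTop
    refine ⟨max K (max K' K''), fun k hk B hB hQ => ?_⟩
    exact hK k ((le_max_left _ _).trans hk) B hB (hK' k (((le_max_left _ _).trans (le_max_right _ _)).trans hk) B hQ)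
      (φ k) (hK'' k (((le_max_right _ _).trans (le_max_right _ _)).trans hk))
  choose W hW using h1
  refine ⟨W, fun k hk B hB hQ => ?_⟩
  by_cases hc : max (W 15) 15 ≤ k
  · set R := (range (k + 1)).filter (fun r => W r ≤ k) with hR
    have h15 : 15 ∈ R := by
      rw [hR, mem_filter, mem_range]
      have := le_max_left (W 15) 15
      have := le_max_right (W 15) 15
      omega
    obtain ⟨r, hr, hmax⟩ := R.exists_max_image id ⟨15, h15⟩
    simp only [id] at hmax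
    have hr' := hr
    rw [hR, mem_filter, mem_range] at hr'
    obtain ⟨D, hD, hDc, hDq⟩ := hW r k hr'.2 B hB hQ
    have hmono : ∀ r' ∈ R, Qual s (B ∪ (D : Set ℕ)) k (1 / ((r' : ℝ) + 1)) := by
      intro r' hr'
      apply Qual_mono _ hDq
      have : (r' : ℝ) ≤ r := by exact_mod_cast hmax r' hr'
      gcongr
    refine ⟨D, hD, ?_, fun _ => ⟨hDc, fun r' h2 h3 => hmono r' ?_⟩⟩
    · have := hmono 15 h15
      norm_num at this
      exact this
    · rw [hR, mem_filter, mem_range]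
      exact ⟨by omega, h3⟩
  · obtain ⟨D, hD, hDq⟩ := hK1 k ((le_max_left _ _).trans hk) B hB
    exact ⟨D, hD, hDq, fun h => absurd h hc⟩

/-- the construction -/
lemma construct (s : ℕ) (hs : 1 ≤ s) (φ : ℕ → ℕ) (hφ : Tendsto φ atTop atTop) (N₀ : ℕ) :
    ∃ (B : Set ℕ) (C : ℕ), (∀ b ∈ B, N₀ < b) ∧
      (∀ k : ℕ, (B ∩ Set.Iic (2 ^ k)).ncard ≤ C + ∑ l ∈ range k, φ l) ∧
      ∀ δ : ℝ, 0 < δ → ∃ K : ℕ, ∀ l ≥ K, Qual s B l δ := by
  classical
  obtain ⟨k0, hk0, W, hW⟩ := good_exists s hs φ hφ N₀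
  -- the finite stages
  let Inv : ℕ → Finset ℕ → Prop := fun k B => (∀ b ∈ B, N₀ < b ∧ b ≤ 2 ^ k) ∧
    ∀ l, k0 ≤ l → l < k → Qual s (B : Set ℕ) l (1 / 16)
  let Rel : ℕ → Finset ℕ → Finset ℕ → Prop := fun k B B' => ∃ D ⊆ Ioc (2 ^ k) (2 ^ (k + 1)), B' = B ∪ D ∧
    (k0 ≤ k → max (W 15) 15 ≤ k → D.card ≤ φ k ∧
      ∀ r ≤ k, W r ≤ k → Qual s (B' : Set ℕ) k (1 / ((r : ℝ) + 1)))
  have hstep : ∀ k (B : {B : Finset ℕ // Inv k B}), ∃ B' : {B' : Finset ℕ // Inv (k + 1) B'}, Rel k B.1 B'.1 := by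
    rintro k ⟨B, hB1, hB2⟩
    have hpow : 2 ^ k ≤ 2 ^ (k + 1) := Nat.pow_le_pow_right (by norm_num) (by omega)
    rcases Nat.lt_or_ge k k0 with hk | hk
    · refine ⟨⟨B, fun b hb => ⟨(hB1 b hb).1, (hB1 b hb).2.trans hpow⟩, fun l h1 h2 => by omega⟩, ∅,
        empty_subset _, by simp, fun h => by omega⟩
    · obtain ⟨D, hD, hq, hgood⟩ := hW k hk (B : Set ℕ) (fun b hb => (hB1 b hb).2) hB2
      have hcoe : ((B ∪ D : Finset ℕ) : Set ℕ) = (B : Set ℕ) ∪ (D : Set ℕ) := coe_union _ _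
      refine ⟨⟨B ∪ D, ?_, ?_⟩, D, hD, rfl, ?_⟩
      · intro b hb
        rcases mem_union.1 hb with h | h
        · exact ⟨(hB1 b h).1, (hB1 b h).2.trans hpow⟩
        · have h1 := mem_Ioc.1 (hD h)
          have h2 : k < 2 ^ k := Nat.lt_two_pow_self
          exact ⟨by omega, h1.2⟩
      · intro l h1 h2
        rw [hcoe]
        rcases Nat.lt_or_ge l k with h3 | h3
        · apply Qual_congr _ (hB2 l h1 h3)
          intro i hi
          have h4 : 2 ^ (l + 1) ≤ 2 ^ k := Nat.pow_le_pow_right (by norm_num) (by omega)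
          constructor
          · exact fun h => Or.inl h
          · rintro (h | h)
            · exact h
            · have := mem_Ioc.1 (hD (mem_coe.1 h))
              omega
        · have : l = k := by omega
          subst this
          exact hq
      · intro _ h2
        obtain ⟨h3, h4⟩ := hgood h2
        refine ⟨h3, fun r hr1 hr2 => ?_⟩
        simp only [hcoe]
        exact h4 r hr1 hr2
  choose f hf using hstep
  let F : (k : ℕ) → {B : Finset ℕ // Inv k B} := fun k =>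
    Nat.rec ⟨∅, by simp [Inv]⟩ (fun k B => f k B) k
  have hF : ∀ k, Rel k (F k).1 (F (k + 1)).1 := fun k => hf k (F k)
  choose D hD1 hD2 hD3 using hF
  have hmono : ∀ k l, k ≤ l → ∀ i ≤ 2 ^ k, (i ∈ (F k).1 ↔ i ∈ (F l).1) := by
    intro k l hkl
    induction l, hkl using Nat.le_induction with
    | base => intro i _; rfl
    | succ l hl ih =>
      intro i hi
      rw [ih i hi, hD2 l, mem_union]
      constructor
      · exact Or.inl
      · rintro (h | h)
        · exact h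
        · have h1 := mem_Ioc.1 (hD1 l h)
          have h2 : 2 ^ k ≤ 2 ^ l := Nat.pow_le_pow_right (by norm_num) hl
          omega
  set B : Set ℕ := {b | ∃ k, b ∈ (F k).1} with hBdef
  have hBF : ∀ k, ∀ i ≤ 2 ^ k, (i ∈ B ↔ i ∈ ((F k).1 : Set ℕ)) := by
    intro k i hi
    rw [mem_coe]
    constructor
    · rintro ⟨l, hl⟩
      rcases Nat.le_total k l with h | h
      · exact (hmono k l h i hi).2 hl
      · exact (hmono l k h i ((F l).2.1 i hl).2).1 hl
    · intro h; exact ⟨k, h⟩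
  set W0 := max k0 (max (W 15) 15) with hW0
  refine ⟨B, (F W0).1.card, ?_, ?_, ?_⟩
  · rintro b ⟨k, hk⟩
    exact ((F k).2.1 b hk).1
  · intro k
    have h1 : B ∩ Set.Iic (2 ^ k) ⊆ ((F k).1 : Set ℕ) := fun i hi => (hBF k i hi.2).1 hi.1
    have h2 : (B ∩ Set.Iic (2 ^ k)).ncard ≤ (F k).1.card := by
      rw [← Set.ncard_coe_finset]
      exact Set.ncard_le_ncard h1 (Finset.finite_toSet _)
    refine h2.trans ?_
    clear h1 h2
    induction k with
    | zero =>
      have : (F 0).1.card = 0 := by simp [F]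
      omega
    | succ k ih =>
      rw [sum_range_succ]
      rcases Nat.lt_or_ge k W0 with h | h
      · have h3 : (F (k + 1)).1 ⊆ (F W0).1 := by
          intro i hi
          exact (hmono (k + 1) W0 h i ((F (k + 1)).2.1 i hi).2).1 hi
        have := card_le_card h3
        omega
      · have h3 := (hD3 k ((le_max_left _ _).trans h) ((le_max_right _ _).trans h)).1
        rw [hD2 k]
        have := card_union_le (F k).1 (D k)
        omega
  · intro δ hδ
    obtain ⟨r, hr⟩ := exists_nat_one_div_lt hδ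
    refine ⟨max W0 (max r (W r)), fun l hl => ?_⟩
    have hl1 : W0 ≤ l := (le_max_left _ _).trans hl
    have hl2 : r ≤ l := ((le_max_left _ _).trans (le_max_right _ _)).trans hl
    have hl3 : W r ≤ l := ((le_max_right _ _).trans (le_max_right _ _)).trans hl
    have h1 := (hD3 l ((le_max_left _ _).trans hl1) ((le_max_right _ _).trans hl1)).2 r hl2 hl3
    apply Qual_congr _ (Qual_mono hr.le h1)
    intro i hi
    exact (hBF (l + 1) i hi).symm

end Pool.Agent.J4H40.PB
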