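import Pool.Agent.J4H40.PB.G
set_option autoImplicit false
namespace Pool.Agent.J4H40.PB
open Finset Filter Topology

lemma choose_phi (ω : ℕ → ℝ) (hω : Tendsto ω atTop atTop) : ∃ φ : ℕ → ℕ, Tendsto φ atTop atTop ∧
    ∀ l x : ℕ, 2 ^ l ≤ x → 0 ≤ ω x → 4 * (φ l : ℝ) ≤ ω x := by
  classical
  refine ⟨fun l => Nat.findGreatest (fun r => ∀ y : ℕ, 2 ^ l ≤ y → 4 * (r : ℝ) ≤ ω y) l, ?_, ?_⟩
  · rw [tendsto_atTop]
    intro r
    obtain ⟨Y, hY⟩ := (hω.eventually_ge_atTop (4 * (r : ℝ))).exists_forall_of_atTop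
    filter_upwards [eventually_ge_atTop (max r Y)] with l hl
    apply Nat.le_findGreatest ((le_max_left _ _).trans hl)
    intro y hy
    apply hY
    have h1 : l < 2 ^ l := Nat.lt_two_pow_self
    have h2 := (le_max_right r Y).trans hl
    omega
  · intro l x hx h0
    rcases Nat.eq_zero_or_pos (Nat.findGreatest (fun r => ∀ y : ℕ, 2 ^ l ≤ y → 4 * (r : ℝ) ≤ ω y) l) with h | h
    · simp only [h]
      simpa using h0
    · exact Nat.findGreatest_of_ne_zero (P := fun r => ∀ y : ℕ, 2 ^ l ≤ y → 4 * (r : ℝ) ≤ ω y) rfl h.ne' x hx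

lemma sparse (ω : ℕ → ℝ) (hω : Tendsto ω atTop atTop) (φ : ℕ → ℕ)
    (hφ : ∀ l x : ℕ, 2 ^ l ≤ x → 0 ≤ ω x → 4 * (φ l : ℝ) ≤ ω x) (B : Set ℕ) (C : ℕ)
    (hB : ∀ k : ℕ, (B ∩ Set.Iic (2 ^ k)).ncard ≤ C + ∑ l ∈ range k, φ l) :
    ∀ᶠ X : ℕ in atTop, ((B ∩ Set.Iic X).ncard : ℝ) ≤ ω X * Real.log X := by
  have hlog : Tendsto (fun X : ℕ => Real.log X) atTop atTop :=
    Real.tendsto_log_atTop.comp tendsto_natCast_atTop_atTop
  filter_upwards [hω.eventually_ge_atTop (C : ℝ), hω.eventually_ge_atTop 0, hlog.eventually_ge_atTop 2,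
    eventually_ge_atTop 1] with X h1 h2 h3 h4
  set k := Nat.log 2 X + 1 with hk
  have h5 : X < 2 ^ k := Nat.lt_pow_succ_log_self (by norm_num) X
  have h6 : 2 ^ (k - 1) ≤ X := Nat.pow_log_le_self 2 (by omega)
  have h7 : (B ∩ Set.Iic X).ncard ≤ (B ∩ Set.Iic (2 ^ k)).ncard := by
    apply Set.ncard_le_ncard
    · intro i hi
      exact ⟨hi.1, (hi.2 : i ≤ X).trans h5.le⟩
    · exact (Set.finite_Iic _).subset Set.inter_subset_right
  have h8 : ((B ∩ Set.Iic X).ncard : ℝ) ≤ C + ∑ l ∈ range k, (φ l : ℝ) := by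
    have := h7.trans (hB k)
    exact_mod_cast this
  have h9 : ∑ l ∈ range k, (φ l : ℝ) ≤ k * (ω X / 4) := by
    calc ∑ l ∈ range k, (φ l : ℝ) ≤ ∑ l ∈ range k, ω X / 4 := by
          apply sum_le_sum
          intro l hl
          rw [mem_range] at hl
          have h10 : 2 ^ l ≤ X := (Nat.pow_le_pow_right (by norm_num) (by omega)).trans h6
          have := hφ l X h10 h2
          linarith
      _ = _ := by rw [sum_const, card_range, nsmul_eq_mul]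
  have h10 : (k : ℝ) ≤ 2 * Real.log X := by
    have h11 : ((k - 1 : ℕ) : ℝ) * Real.log 2 ≤ Real.log X := by
      rw [← Real.log_pow]
      apply Real.log_le_log (by positivity)
      exact_mod_cast h6
    have h12 : (k : ℝ) = ((k - 1 : ℕ) : ℝ) + 1 := by
      rw [hk]; push_cast; simp
    have h13 := Real.log_two_gt_d9
    have h14 : ((k - 1 : ℕ) : ℝ) * (2 / 3) ≤ Real.log X := by
      have h15 : (0 : ℝ) ≤ ((k - 1 : ℕ) : ℝ) := by positivity
      nlinarith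
    rw [h12]
    linarith
  have h11 : (k : ℝ) * (ω X / 4) ≤ 2 * Real.log X * (ω X / 4) := by gcongr
  nlinarith [mul_nonneg h2 (by linarith : (0 : ℝ) ≤ Real.log X - 2)]

lemma word_count (B : Set ℕ) (s : ℕ) (w : ℕ → ZMod 2) (X : ℕ) :
    (({n : ℕ | ∀ i < s, pz B (n + i) = w i} ∩ Set.Iio X).ncard : ℝ) =
      (1 / 2) ^ s * ∑ J ∈ (range s).powerset, chi (∑ j ∈ J, w j) * ∑ n ∈ range X, chi (∑ j ∈ J, pz B (n + j)) := by
  classical
  have e1 : ({n : ℕ | ∀ i < s, pz B (n + i) = w i} ∩ Set.Iio X).ncard =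
      ((range X).filter (fun n => ∀ i < s, pz B (n + i) = w i)).card := by
    rw [← Set.ncard_coe_finset]
    congr 1
    ext n
    simp only [Set.mem_inter_iff, Set.mem_setOf_eq, Set.mem_Iio, coe_filter, mem_range]
    tauto
  have e2 : ∀ n : ℕ, (if ∀ i < s, pz B (n + i) = w i then (1 : ℝ) else 0) =
      (1 / 2) ^ s * ∑ J ∈ (range s).powerset, chi (∑ j ∈ J, w j) * chi (∑ j ∈ J, pz B (n + j)) := by
    intro n
    have e3 : ∀ i, (if pz B (n + i) = w i then (1 : ℝ) else 0) = 1 / 2 * (1 + chi (w i) * chi (pz B (n + i))) := by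
      intro i
      have h2 : ∀ x : ZMod 2, x = 0 ∨ x = 1 := by decide
      have h4 : (1 : ZMod 2) ≠ 0 := by decide
      rcases h2 (pz B (n + i)) with h | h <;> rcases h2 (w i) with h' | h' <;> rw [h, h'] <;>
        simp [chi, h4, h4.symm]
      all_goals norm_num
    have e4 : (if ∀ i < s, pz B (n + i) = w i then (1 : ℝ) else 0) =
        ∏ i ∈ range s, (if pz B (n + i) = w i then (1 : ℝ) else 0) := by
      rw [Finset.prod_boole]
      simp only [mem_range]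
    rw [e4, prod_congr rfl (fun i _ => e3 i), prod_mul_distrib, prod_const, card_range, prod_one_add]
    congr 1
    apply sum_congr rfl
    intro J _
    rw [prod_mul_distrib, chi_sum, chi_sum]
  rw [e1, card_filter]
  push_cast
  rw [sum_congr rfl (fun n _ => e2 n), ← mul_sum, sum_comm]
  congr 1
  apply sum_congr rfl
  intro J _
  rw [mul_sum]

lemma word_bound (B : Set ℕ) (s : ℕ)
    (h : ∀ J ⊆ range s, J.Nonempty → ∀ ε : ℝ, 0 < ε →
      ∃ X₀ : ℕ, ∀ X ≥ X₀, |∑ i ∈ range X, chi (∑ j ∈ J, pz B (i + j))| ≤ ε * X)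
    (w : ℕ → ZMod 2) (ε : ℝ) (hε : 0 < ε) :
    ∃ X₀ : ℕ, ∀ X ≥ X₀, |(({n : ℕ | ∀ i < s, pz B (n + i) = w i} ∩ Set.Iio X).ncard : ℝ) - (1 / 2) ^ s * X| ≤ ε * X := by
  classical
  have h1 : ∀ J : Finset ℕ, ∃ X₀ : ℕ, J ∈ (range s).powerset.erase ∅ →
      ∀ X ≥ X₀, |∑ i ∈ range X, chi (∑ j ∈ J, pz B (i + j))| ≤ ε * X := by
    intro J
    by_cases hJ : J ∈ (range s).powerset.erase ∅
    · rw [mem_erase, mem_powerset] at hJ
      obtain ⟨X₀, hX₀⟩ := h J hJ.2 (nonempty_iff_ne_empty.2 hJ.1) ε hε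
      exact ⟨X₀, fun _ => hX₀⟩
    · exact ⟨0, fun h => absurd h hJ⟩
  choose X₀ hX₀ using h1
  refine ⟨∑ J ∈ (range s).powerset.erase ∅, X₀ J, fun X hX => ?_⟩
  rw [word_count]
  have hmem : (∅ : Finset ℕ) ∈ (range s).powerset := empty_mem_powerset _
  rw [← add_sum_erase _ _ hmem]
  have e1 : chi (∑ j ∈ (∅ : Finset ℕ), w j) * ∑ n ∈ range X, chi (∑ j ∈ (∅ : Finset ℕ), pz B (n + j)) = X := by
    simp [chi_zero]
  rw [e1, mul_add, add_sub_cancel_left, abs_mul, abs_of_nonneg (by positivity : (0 : ℝ) ≤ (1 / 2) ^ s)]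
  have h2 : |∑ J ∈ (range s).powerset.erase ∅, chi (∑ j ∈ J, w j) * ∑ n ∈ range X, chi (∑ j ∈ J, pz B (n + j))| ≤
      2 ^ s * (ε * X) := by
    refine (abs_sum_le_sum_abs _ _).trans ?_
    calc ∑ J ∈ (range s).powerset.erase ∅, |chi (∑ j ∈ J, w j) * ∑ n ∈ range X, chi (∑ j ∈ J, pz B (n + j))|
        ≤ ∑ J ∈ (range s).powerset.erase ∅, ε * X := by
          apply sum_le_sum
          intro J hJ
          rw [abs_mul, abs_chi, one_mul]
          exact hX₀ J hJ X ((single_le_sum (fun J _ => Nat.zero_le (X₀ J)) hJ).trans hX)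
      _ ≤ _ := by
          rw [sum_const, nsmul_eq_mul]
          gcongr
          have h3 : ((range s).powerset.erase ∅).card ≤ 2 ^ s := by
            refine (card_erase_le).trans ?_
            rw [card_powerset, card_range]
          exact_mod_cast h3
  calc (1 / 2 : ℝ) ^ s * |∑ J ∈ (range s).powerset.erase ∅, chi (∑ j ∈ J, w j) * ∑ n ∈ range X, chi (∑ j ∈ J, pz B (n + j))|
      ≤ (1 / 2 : ℝ) ^ s * (2 ^ s * (ε * X)) := by gcongr
    _ = ε * X := by rw [← mul_assoc, ← mul_pow]; norm_num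

theorem main (s N₀ : ℕ) (ω : ℕ → ℝ) (hω : Tendsto ω atTop atTop) :
    ∃ B : Set ℕ, (∀ b ∈ B, N₀ < b) ∧
      (∀ᶠ X : ℕ in atTop, ((B ∩ Set.Iic X).ncard : ℝ) ≤ ω X * Real.log X) ∧
      ∀ w : ℕ → ZMod 2, Tendsto (fun X : ℕ => (({n : ℕ | ∀ i < s, pz B (n + i) = w i} ∩ Set.Iio X).ncard : ℝ) / X)
        atTop (𝓝 (1 / 2 ^ s)) := by
  obtain ⟨φ, hφ1, hφ2⟩ := choose_phi ω hω
  obtain ⟨B, C, h1, h2, h3⟩ := construct (s + 1) (by omega) φ hφ1 N₀
  refine ⟨B, h1, sparse ω hω φ hφ2 B C h2, fun w => ?_⟩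
  have h4 := word_bound B s (fun J hJ hJn ε hε => E4 (s + 1) B h3 J
    (hJ.trans (range_subset_range.2 (by omega))) hJn ε hε) w
  rw [Metric.tendsto_atTop]
  intro ε hε
  obtain ⟨X₀, hX₀⟩ := h4 (ε / 2) (by linarith)
  refine ⟨X₀ + 1, fun X hX => ?_⟩
  have h5 := hX₀ X (by omega)
  have hX0 : (0 : ℝ) < X := by exact_mod_cast (by omega : 0 < X)
  rw [Real.dist_eq]
  have e : (({n : ℕ | ∀ i < s, pz B (n + i) = w i} ∩ Set.Iio X).ncard : ℝ) / X - 1 / 2 ^ s =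
      ((({n : ℕ | ∀ i < s, pz B (n + i) = w i} ∩ Set.Iio X).ncard : ℝ) - (1 / 2) ^ s * X) / X := by
    rw [div_pow, one_pow]
    field_simp
  rw [e, abs_div, abs_of_pos hX0, div_lt_iff₀ hX0]
  nlinarith

end Pool.Agent.J4H40.PB
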