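import Pool.Agent.J4H40.PB.H
set_option autoImplicit false
namespace Pool.Agent.J4H40.PB
open Finset

lemma pow_diff (x y : ℝ) (hx : |x| ≤ 1) (hy : |y| ≤ 1) (m : ℕ) : |x ^ m - y ^ m| ≤ m * |x - y| := by
  induction m with
  | zero => simp
  | succ m ih =>
    have e : x ^ (m + 1) - y ^ (m + 1) = x * (x ^ m - y ^ m) + (x - y) * y ^ m := by ring
    rw [e]
    refine (abs_add_le _ _).trans ?_
    rw [abs_mul, abs_mul, abs_pow]
    have h1 : |y| ^ m ≤ 1 := pow_le_one₀ (abs_nonneg _) hy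
    have h2 : |x| * |x ^ m - y ^ m| ≤ 1 * (m * |x - y|) := by
      gcongr
    have h3 : |x - y| * |y| ^ m ≤ |x - y| * 1 := by gcongr
    push_cast
    linarith

/-- indicator of a nonzero parity -/
noncomputable def rr (x : ZMod 2) : ℝ := if x = 0 then 0 else 1

lemma chi_rr (x : ZMod 2) : chi x = 1 - 2 * rr x := by
  unfold chi rr; split_ifs <;> norm_num

lemma rr_nonneg (x : ZMod 2) : 0 ≤ rr x := by unfold rr; split_ifs <;> norm_num

lemma variance {m : ℕ} (Bl I : Finset ℕ) (v : ℕ → ZMod 2) (w : ℕ → ℕ → ZMod 2) (V : ℕ) (hBl : 0 < Bl.card)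
    (hV : ∀ b ∈ Bl, ((I.filter (fun n => ¬ w n b = 0)).card) ≤ V) :
    ∑ β ∈ Fintype.piFinset (fun _ : Fin m => Bl),
      (∑ n ∈ I, chi (v n + ∑ i, w n (β i)) -
        ∑ n ∈ I, chi (v n) * ((∑ b ∈ Bl, chi (w n b)) / Bl.card) ^ m) ^ 2 ≤
      (Bl.card : ℝ) ^ m * (8 * m * (V : ℝ) ^ 2) := by
  set M : ℝ := (Bl.card : ℝ) with hM
  have hM0 : 0 < M := by rw [hM]; exact_mod_cast hBl
  set P := Fintype.piFinset (fun _ : Fin m => Bl) with hP
  have hPc : (P.card : ℝ) = M ^ m := by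
    rw [hP, Fintype.card_piFinset]; simp [hM]
  set L1 : ℕ → ℝ := fun n => ∑ b ∈ Bl, chi (w n b) with hL1
  set L2 : ℕ → ℕ → ℝ := fun n n' => ∑ b ∈ Bl, chi (w n b + w n' b) with hL2
  have e1 : ∀ n : ℕ, ∑ β ∈ P, chi (v n + ∑ i, w n (β i)) = chi (v n) * (L1 n) ^ m := by
    intro n
    have e2 : (L1 n) ^ m = ∏ _i : Fin m, ∑ b ∈ Bl, chi (w n b) := by simp [hL1]
    rw [e2, Finset.prod_univ_sum, mul_sum]
    apply sum_congr rfl
    intro β _
    rw [chi_add, chi_sum]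
  have e3 : ∀ n n' : ℕ, ∑ β ∈ P, chi (v n + ∑ i, w n (β i)) * chi (v n' + ∑ i, w n' (β i)) =
      chi (v n) * chi (v n') * (L2 n n') ^ m := by
    intro n n'
    have e2 : (L2 n n') ^ m = ∏ _i : Fin m, ∑ b ∈ Bl, chi (w n b + w n' b) := by simp [hL2]
    rw [e2, Finset.prod_univ_sum, mul_sum]
    apply sum_congr rfl
    intro β _
    rw [← chi_add, ← chi_sum, ← chi_add, ← chi_add]
    congr 1
    rw [sum_add_distrib]
    ring
  set μ : ℝ := ∑ n ∈ I, chi (v n) * (L1 n / M) ^ m with hμ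
  have e4 : ∑ β ∈ P, ∑ n ∈ I, chi (v n + ∑ i, w n (β i)) = M ^ m * μ := by
    rw [sum_comm, hμ, mul_sum]
    apply sum_congr rfl
    intro n _
    rw [e1, div_pow]
    field_simp
  have e5 : ∑ β ∈ P, (∑ n ∈ I, chi (v n + ∑ i, w n (β i))) ^ 2 =
      ∑ n ∈ I, ∑ n' ∈ I, chi (v n) * chi (v n') * (L2 n n') ^ m := by
    simp_rw [← e3]
    rw [sum_congr rfl (fun n _ => sum_comm), sum_comm]
    apply sum_congr rfl
    intro β _
    rw [sq, sum_mul_sum]
  have e6 : ∑ β ∈ P, (∑ n ∈ I, chi (v n + ∑ i, w n (β i)) - μ) ^ 2 =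
      ∑ n ∈ I, ∑ n' ∈ I, chi (v n) * chi (v n') * (M ^ m * ((L2 n n' / M) ^ m - (L1 n / M * (L1 n' / M)) ^ m)) := by
    have e7 : ∀ β : Fin m → ℕ, (∑ n ∈ I, chi (v n + ∑ i, w n (β i)) - μ) ^ 2 =
        (∑ n ∈ I, chi (v n + ∑ i, w n (β i))) ^ 2 - 2 * μ * (∑ n ∈ I, chi (v n + ∑ i, w n (β i))) + μ ^ 2 := by
      intro β; ring
    rw [sum_congr rfl (fun β _ => e7 β), sum_add_distrib, sum_sub_distrib, ← mul_sum, e4, e5, sum_const,
      nsmul_eq_mul, hPc]
    have e8 : M ^ m * μ ^ 2 = ∑ n ∈ I, ∑ n' ∈ I, chi (v n) * chi (v n') * (M ^ m * (L1 n / M * (L1 n' / M)) ^ m) := by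
      rw [hμ, sq, sum_mul_sum, mul_sum]
      apply sum_congr rfl
      intro n _
      rw [mul_sum]
      apply sum_congr rfl
      intro n' _
      rw [mul_pow]
      ring
    have e9 : ∑ n ∈ I, ∑ n' ∈ I, chi (v n) * chi (v n') * (L2 n n') ^ m =
        ∑ n ∈ I, ∑ n' ∈ I, chi (v n) * chi (v n') * (M ^ m * (L2 n n' / M) ^ m) := by
      apply sum_congr rfl
      intro n _
      apply sum_congr rfl
      intro n' _
      rw [div_pow]
      field_simp
    rw [e9]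
    have e10 : ∑ n ∈ I, ∑ n' ∈ I, chi (v n) * chi (v n') * (M ^ m * ((L2 n n' / M) ^ m - (L1 n / M * (L1 n' / M)) ^ m)) =
        ∑ n ∈ I, ∑ n' ∈ I, chi (v n) * chi (v n') * (M ^ m * (L2 n n' / M) ^ m) -
        ∑ n ∈ I, ∑ n' ∈ I, chi (v n) * chi (v n') * (M ^ m * (L1 n / M * (L1 n' / M)) ^ m) := by
      rw [← sum_sub_distrib]
      apply sum_congr rfl
      intro n _
      rw [← sum_sub_distrib]
      apply sum_congr rfl
      intro n' _
      ring
    rw [e10, ← e8]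
    ring
  -- the numbers of the nonzero effects
  set N1 : ℕ → ℝ := fun n => ∑ b ∈ Bl, rr (w n b) with hN1
  set N2 : ℕ → ℕ → ℝ := fun n n' => ∑ b ∈ Bl, rr (w n b) * rr (w n' b) with hN2
  have f1 : ∀ n, L1 n = M - 2 * N1 n := by
    intro n
    simp only [hL1, hN1, hM]
    rw [sum_congr rfl (fun b _ => chi_rr (w n b)), sum_sub_distrib, ← mul_sum]
    simp
  have f2 : ∀ n n', L2 n n' = M - 2 * N1 n - 2 * N1 n' + 4 * N2 n n' := by
    intro n n'
    simp only [hL2, hN1, hN2, hM]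
    have : ∀ b ∈ Bl, chi (w n b + w n' b) = 1 - 2 * rr (w n b) - 2 * rr (w n' b) + 4 * (rr (w n b) * rr (w n' b)) := by
      intro b _
      rw [chi_add, chi_rr, chi_rr]; ring
    rw [sum_congr rfl this, sum_add_distrib, sum_sub_distrib, sum_sub_distrib, ← mul_sum, ← mul_sum, ← mul_sum]
    simp
  have hN1n : ∀ n, 0 ≤ N1 n := fun n => sum_nonneg fun b _ => rr_nonneg _
  have hN2n : ∀ n n', 0 ≤ N2 n n' := fun n n' => sum_nonneg fun b _ => mul_nonneg (rr_nonneg _) (rr_nonneg _)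
  have g1 : ∀ n, |L1 n / M| ≤ 1 := by
    intro n
    rw [abs_div, abs_of_pos hM0, div_le_one hM0]
    refine (abs_sum_le_sum_abs _ _).trans ?_
    simp [abs_chi, hM]
  have g2 : ∀ n n', |L2 n n' / M| ≤ 1 := by
    intro n n'
    rw [abs_div, abs_of_pos hM0, div_le_one hM0]
    refine (abs_sum_le_sum_abs _ _).trans ?_
    simp [abs_chi, hM]
  have g3 : ∀ n n', |L2 n n' / M - L1 n / M * (L1 n' / M)| ≤ 4 * (N2 n n' / M + N1 n * N1 n' / M ^ 2) := by
    intro n n'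
    have e : L2 n n' / M - L1 n / M * (L1 n' / M) = 4 * (N2 n n' / M - N1 n * N1 n' / M ^ 2) := by
      rw [f1, f1, f2]; field_simp; ring
    rw [e, abs_mul, abs_of_pos (by norm_num : (0 : ℝ) < 4)]
    have h1 : 0 ≤ N2 n n' / M := div_nonneg (hN2n n n') hM0.le
    have h2 : 0 ≤ N1 n * N1 n' / M ^ 2 := div_nonneg (mul_nonneg (hN1n n) (hN1n n')) (by positivity)
    have h3 : |N2 n n' / M - N1 n * N1 n' / M ^ 2| ≤ N2 n n' / M + N1 n * N1 n' / M ^ 2 := by
      rw [abs_le]; constructor <;> linarith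
    linarith
  have hcol : ∀ b ∈ Bl, ∑ n ∈ I, rr (w n b) ≤ V := by
    intro b hb
    have : ∑ n ∈ I, rr (w n b) = ((I.filter (fun n => ¬ w n b = 0)).card : ℝ) := by
      rw [card_filter]
      push_cast
      apply sum_congr rfl
      intro n _
      unfold rr
      split_ifs <;> simp_all
    rw [this]
    exact_mod_cast hV b hb
  have hcol0 : ∀ b, 0 ≤ ∑ n ∈ I, rr (w n b) := fun b => sum_nonneg fun n _ => rr_nonneg _
  have k1 : ∑ n ∈ I, N1 n ≤ M * V := by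
    simp only [hN1]
    rw [sum_comm]
    refine (sum_le_sum hcol).trans ?_
    rw [sum_const, nsmul_eq_mul]
  have k1' : 0 ≤ ∑ n ∈ I, N1 n := sum_nonneg fun n _ => hN1n n
  have k2 : ∑ n ∈ I, ∑ n' ∈ I, N2 n n' ≤ M * V ^ 2 := by
    have : ∑ n ∈ I, ∑ n' ∈ I, N2 n n' = ∑ b ∈ Bl, (∑ n ∈ I, rr (w n b)) ^ 2 := by
      simp only [hN2]
      rw [sum_congr rfl (fun n _ => sum_comm), sum_comm]
      apply sum_congr rfl
      intro b _
      rw [sq, sum_mul_sum]
    rw [this]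
    calc ∑ b ∈ Bl, (∑ n ∈ I, rr (w n b)) ^ 2 ≤ ∑ b ∈ Bl, (V : ℝ) ^ 2 := by
          apply sum_le_sum
          intro b hb
          exact pow_le_pow_left₀ (hcol0 b) (hcol b hb) 2
      _ = _ := by rw [sum_const, nsmul_eq_mul]
  rw [e6]
  calc ∑ n ∈ I, ∑ n' ∈ I, chi (v n) * chi (v n') * (M ^ m * ((L2 n n' / M) ^ m - (L1 n / M * (L1 n' / M)) ^ m))
      ≤ ∑ n ∈ I, ∑ n' ∈ I, M ^ m * (m * (4 * (N2 n n' / M + N1 n * N1 n' / M ^ 2))) := by
        apply sum_le_sum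
        intro n _
        apply sum_le_sum
        intro n' _
        refine (le_abs_self _).trans ?_
        rw [abs_mul, abs_mul, abs_chi, abs_chi, one_mul, one_mul, abs_mul, abs_of_nonneg (by positivity : 0 ≤ M ^ m)]
        gcongr
        have h1 : |L1 n / M * (L1 n' / M)| ≤ 1 := by
          rw [abs_mul]
          exact mul_le_one₀ (g1 n) (abs_nonneg _) (g1 n')
        refine (pow_diff _ _ (g2 n n') h1 m).trans ?_
        gcongr
        exact g3 n n'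
    _ = M ^ m * (4 * m * ((∑ n ∈ I, ∑ n' ∈ I, N2 n n') / M + (∑ n ∈ I, N1 n) ^ 2 / M ^ 2)) := by
        rw [sq (∑ n ∈ I, N1 n), sum_mul_sum, sum_div, sum_div, ← sum_add_distrib]
        rw [mul_sum, mul_sum]
        apply sum_congr rfl
        intro n _
        rw [sum_div, sum_div, ← sum_add_distrib, mul_sum, mul_sum]
        apply sum_congr rfl
        intro n' _
        ring
    _ ≤ M ^ m * (4 * m * (M * V ^ 2 / M + (M * V) ^ 2 / M ^ 2)) := by
        gcongr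
    _ = M ^ m * (8 * m * (V : ℝ) ^ 2) := by
        field_simp
        ring

end Pool.Agent.J4H40.PB
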