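import Pool.Agent.J4H40.PB.I
set_option autoImplicit false
namespace Pool.Agent.J4H40.PB
open Finset

/-- **Choice of the deleted parts in one block**, with an additional cost -/
lemma pick2 {ι : Type} [DecidableEq ι] (𝒥 : Finset ι) (v : ι → ℕ → ZMod 2) (w : ι → ℕ → ℕ → ZMod 2)
    (M E G L H m : ℕ) (q : ℝ) (hM : 1 ≤ M) (hE : E ≤ 2 * M) (hG : 1 ≤ G) (hL : M ≤ L * G) (hH : 1 ≤ H) (hq : 0 ≤ q)
    (hw : ∀ J ∈ 𝒥, ∀ n n' : ℕ, M < n → n' ≤ E → n + H ≤ n' →
      |∑ b ∈ Ioc M (2 * M), chi (w J n b + w J n' b)| ≤ q * M)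
    (C : (Fin m → ℕ) → ℝ) (hC0 : ∀ β, 0 ≤ C β)
    (hC : ∑ β ∈ Fintype.piFinset (fun _ : Fin m => Ioc M (2 * M)), C β ≤ (M : ℝ) ^ m / 4) :
    ∃ β : Fin m → ℕ, (∀ i, β i ∈ Ioc M (2 * M)) ∧ C β < 1 ∧ ∀ J ∈ 𝒥, ∀ N, M ≤ N → N ≤ E →
      |∑ n ∈ Ioc M N, chi (v J n + ∑ i, w J n (β i))| ≤
        G + √(2 * ((𝒥.card : ℝ) * (L + 1) * (2 * H * M + (M : ℝ) ^ 2 * q ^ m) + 1)) := by
  have hM0 : (0 : ℝ) < M := by exact_mod_cast hM
  have hcard : (Ioc M (2 * M)).card = M := by rw [Nat.card_Ioc]; omega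
  set K : ℝ := (𝒥.card : ℝ) * (L + 1) * (2 * H * M + (M : ℝ) ^ 2 * q ^ m) with hK
  have hK0 : 0 ≤ K := by positivity
  set F : ι → ℕ → (Fin m → ℕ) → ℝ := fun J t β =>
    if M + t * G ≤ E then (∑ n ∈ Ioc M (M + t * G), chi (v J n + ∑ i, w J n (β i))) ^ 2 else 0 with hF
  have hF0 : ∀ J t β, 0 ≤ F J t β := by
    intro J t β
    simp only [hF]
    split_ifs
    · positivity
    · exact le_rfl
  have h1 : ∀ J ∈ 𝒥, ∀ t : ℕ, ∑ β ∈ Fintype.piFinset (fun _ : Fin m => Ioc M (2 * M)), F J t β ≤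
      (M : ℝ) ^ m * (2 * H * M + (M : ℝ) ^ 2 * q ^ m) := by
    intro J hJ t
    simp only [hF]
    split_ifs with ht
    · have h2 := second (m := m) (Ioc M (2 * M)) (Ioc M (M + t * G)) (v J) (w J) H (q * M) (by positivity)
        (fun n hn n' hn' h => hw J hJ n n' (mem_Ioc.1 hn).1 ((mem_Ioc.1 hn').2.trans ht) h) hH
      refine h2.trans ?_
      have h3 : (((Ioc M (M + t * G)).card : ℕ) : ℝ) ≤ M := by
        rw [Nat.card_Ioc]
        have : M + t * G - M ≤ M := by omega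
        exact_mod_cast this
      rw [hcard]
      push_cast
      calc 2 * (H : ℝ) * ((Ioc M (M + t * G)).card : ℝ) * (M : ℝ) ^ m +
            ((Ioc M (M + t * G)).card : ℝ) ^ 2 * (q * M) ^ m
          ≤ 2 * (H : ℝ) * M * (M : ℝ) ^ m + (M : ℝ) ^ 2 * (q * M) ^ m := by gcongr
        _ = (M : ℝ) ^ m * (2 * H * M + (M : ℝ) ^ 2 * q ^ m) := by rw [mul_pow]; ring
    · rw [sum_const_zero]
      positivity
  have h2 : ∑ β ∈ Fintype.piFinset (fun _ : Fin m => Ioc M (2 * M)), ∑ J ∈ 𝒥, ∑ t ∈ range (L + 1), F J t β ≤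
      (M : ℝ) ^ m * K := by
    rw [sum_comm]
    calc ∑ J ∈ 𝒥, ∑ β ∈ Fintype.piFinset (fun _ : Fin m => Ioc M (2 * M)), ∑ t ∈ range (L + 1), F J t β
        ≤ ∑ J ∈ 𝒥, (L + 1) * ((M : ℝ) ^ m * (2 * H * M + (M : ℝ) ^ 2 * q ^ m)) := by
          apply sum_le_sum
          intro J hJ
          rw [sum_comm]
          refine (sum_le_sum fun t _ => h1 J hJ t).trans ?_
          rw [sum_const, nsmul_eq_mul, card_range]
          push_cast
          exact le_rfl
      _ = _ := by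
          rw [sum_const, nsmul_eq_mul, hK]
          ring
  set P := Fintype.piFinset (fun _ : Fin m => Ioc M (2 * M)) with hP
  have hPc : (P.card : ℝ) = (M : ℝ) ^ m := by
    rw [hP, Fintype.card_piFinset]; simp [hcard]
  have h2' : ∑ β ∈ P, ((∑ J ∈ 𝒥, ∑ t ∈ range (L + 1), F J t β) / (2 * (K + 1)) + C β) ≤ ∑ β ∈ P, (3 / 4 : ℝ) := by
    rw [sum_add_distrib, ← sum_div, sum_const, nsmul_eq_mul, hPc]
    have h3 : (∑ β ∈ P, ∑ J ∈ 𝒥, ∑ t ∈ range (L + 1), F J t β) / (2 * (K + 1)) ≤ (M : ℝ) ^ m / 2 := by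
      rw [div_le_div_iff₀ (by positivity) (by norm_num)]
      have : 0 ≤ (M : ℝ) ^ m := by positivity
      nlinarith
    linarith
  have hne : P.Nonempty :=
    ⟨fun _ => 2 * M, by rw [hP, Fintype.mem_piFinset]; intro i; rw [mem_Ioc]; omega⟩
  obtain ⟨β, hβ, h3⟩ := exists_le_of_sum_le hne h2'
  rw [hP, Fintype.mem_piFinset] at hβ
  have hnn : 0 ≤ ∑ J ∈ 𝒥, ∑ t ∈ range (L + 1), F J t β := sum_nonneg fun J _ => sum_nonneg fun t _ => hF0 J t β
  have hnn' : 0 ≤ (∑ J ∈ 𝒥, ∑ t ∈ range (L + 1), F J t β) / (2 * (K + 1)) := by positivity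
  refine ⟨β, hβ, by linarith, ?_⟩
  have h3' : ∑ J ∈ 𝒥, ∑ t ∈ range (L + 1), F J t β ≤ 2 * (K + 1) := by
    have h4 : (∑ J ∈ 𝒥, ∑ t ∈ range (L + 1), F J t β) / (2 * (K + 1)) ≤ 1 := by
      have := hC0 β
      linarith
    rwa [div_le_one (by positivity)] at h4
  intro J hJ N hN1 hN2
  set t := (N - M) / G with ht
  have ht1 : t * G ≤ N - M := Nat.div_mul_le_self _ _
  have ht2 : N - M < t * G + G := by
    have := Nat.lt_div_mul_add (a := N - M) (b := G) (by omega)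
    exact this
  have ht3 : t ≤ L := by
    have h4 : N - M ≤ L * G := by omega
    have h5 : t ≤ (L * G) / G := Nat.div_le_div_right h4
    rwa [Nat.mul_div_cancel _ (by omega)] at h5
  have h4 : F J t β ≤ 2 * (K + 1) := by
    have h5 : F J t β ≤ ∑ t ∈ range (L + 1), F J t β :=
      single_le_sum (fun t _ => hF0 J t β) (mem_range.2 (by omega))
    have h6 : ∑ t ∈ range (L + 1), F J t β ≤ ∑ J ∈ 𝒥, ∑ t ∈ range (L + 1), F J t β :=
      single_le_sum (f := fun J => ∑ t ∈ range (L + 1), F J t β)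
        (fun J _ => sum_nonneg fun t _ => hF0 J t β) hJ
    linarith
  simp only [hF] at h4
  rw [if_pos (by omega)] at h4
  have h5 : |∑ n ∈ Ioc M (M + t * G), chi (v J n + ∑ i, w J n (β i))| ≤ √(2 * (K + 1)) := Real.abs_le_sqrt h4
  have h6 : ∑ n ∈ Ioc M N, chi (v J n + ∑ i, w J n (β i)) =
      ∑ n ∈ Ioc M (M + t * G), chi (v J n + ∑ i, w J n (β i)) +
      ∑ n ∈ Ioc (M + t * G) N, chi (v J n + ∑ i, w J n (β i)) := by
    exact (Finset.sum_Ioc_consecutive (fun n => chi (v J n + ∑ i, w J n (β i)))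
      (by omega : M ≤ M + t * G) (by omega : M + t * G ≤ N)).symm
  have h7 : |∑ n ∈ Ioc (M + t * G) N, chi (v J n + ∑ i, w J n (β i))| ≤ G := by
    refine (abs_sum_le_sum_abs _ _).trans ?_
    simp only [abs_chi, sum_const, nsmul_eq_mul, mul_one, Nat.card_Ioc]
    have : N - (M + t * G) ≤ G := by omega
    exact_mod_cast this
  rw [h6]
  refine (abs_add_le _ _).trans ?_
  linarith

/-- the number of the ones of the pattern `J` below `x` -/
noncomputable def cnt (B : Set ℕ) (J : Finset ℕ) (x : ℕ) : ℕ :=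
  ((range x).filter (fun i => ¬ (∑ j ∈ J, pz B (i + j)) = 0)).card

lemma cnt_mono (B : Set ℕ) (J : Finset ℕ) {x y : ℕ} (h : x ≤ y) : cnt B J x ≤ cnt B J y :=
  card_le_card (filter_subset_filter _ (range_subset_range.2 h))

lemma wt_shift (a : ℕ → ZMod 2) (J : Finset ℕ) (n b : ℕ) (h : b ≤ n) : wt a J n b = ∑ j ∈ J, a (n - b + j) := by
  unfold wt
  apply sum_congr rfl
  intro j _
  rw [if_pos (by omega)]
  congr 1
  omega

lemma wt_far (a : ℕ → ZMod 2) (S : ℕ) (J : Finset ℕ) (hJ : J ⊆ range S) (n b : ℕ) (h : n + S ≤ b) : wt a J n b = 0 := by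
  unfold wt
  apply sum_eq_zero
  intro j hj
  have := mem_range.1 (hJ hj)
  rw [if_neg (by omega)]

/-- many parts `b` have an effect on `n` -/
lemma effects_ge (B : Set ℕ) (S : ℕ) (J : Finset ℕ) (hJ : J ⊆ range S) (hJn : J.Nonempty) (K n : ℕ) (hK : 2 * S ≤ K)
    (hn1 : 6 * K < n) (hn2 : n ≤ 7 * K) :
    max (cnt B J (2 * K)) 1 ≤ ((Ioc (4 * K) (2 * (4 * K))).filter (fun b => ¬ wt (pz B) J n b = 0)).card := by
  classical
  apply max_le
  · unfold cnt
    apply card_le_card_of_injOn (fun i => n - i)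
    · intro i hi
      simp only [coe_filter, mem_range, Set.mem_ofPred_eq] at hi
      simp only [coe_filter, mem_Ioc, Set.mem_ofPred_eq]
      refine ⟨by omega, ?_⟩
      rw [wt_shift _ _ _ _ (by omega), show n - (n - i) = i by omega]
      exact hi.2
    · intro i hi i' hi' h
      simp only [coe_filter, mem_range, Set.mem_ofPred_eq] at hi hi'
      simp only at h
      omega
  · rw [Nat.succ_le_iff, card_pos]
    obtain ⟨jm, hjm, hmax⟩ := J.exists_max_image id hJn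
    have hjs := mem_range.1 (hJ hjm)
    simp only [id] at hmax
    refine ⟨n + jm, ?_⟩
    rw [mem_filter, mem_Ioc]
    refine ⟨by omega, ?_⟩
    have e2 : wt (pz B) J n (n + jm) = 1 := by
      unfold wt
      rw [sum_eq_single jm]
      · rw [if_pos le_rfl, Nat.sub_self]
        unfold pz
        rw [pn_zero, Nat.cast_one]
      · intro j hj hne
        have := hmax j hj
        rw [if_neg (by omega)]
      · intro h; exact absurd hjm h
    rw [e2]
    decide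

lemma effects_le (B : Set ℕ) (S : ℕ) (J : Finset ℕ) (hJ : J ⊆ range S) (K n : ℕ) (hK : 2 * S ≤ K)
    (hn2 : n ≤ 7 * K) :
    2 * ((Ioc (4 * K) (2 * (4 * K))).filter (fun b => ¬ wt (pz B) J n b = 0)).card ≤ 7 * K := by
  classical
  have h1 : (Ioc (4 * K) (2 * (4 * K))).filter (fun b => ¬ wt (pz B) J n b = 0) ⊆ Ioc (4 * K) (n + S) := by
    intro b hb
    rw [mem_filter, mem_Ioc] at hb
    rw [mem_Ioc]
    refine ⟨hb.1.1, ?_⟩
    by_contra hc
    exact hb.2 (wt_far _ S J hJ n b (by omega))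
  have h2 := card_le_card h1
  rw [Nat.card_Ioc] at h2
  omega

lemma effects_col (B : Set ℕ) (S : ℕ) (J : Finset ℕ) (hJ : J ⊆ range S) (K b : ℕ) (hK : 2 * S ≤ K)
    (hb : 4 * K < b) :
    ((Ioc (6 * K) (7 * K)).filter (fun n => ¬ wt (pz B) J n b = 0)).card ≤ cnt B J (4 * K - S) + S := by
  classical
  have h1 : (Ioc (6 * K) (7 * K)).filter (fun n => ¬ wt (pz B) J n b = 0) ⊆
      ((range (4 * K - S)).filter (fun i => ¬ (∑ j ∈ J, pz B (i + j)) = 0)).image (fun i => b + i) ∪ Ico (b - S) b := by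
    intro n hn
    rw [mem_filter, mem_Ioc] at hn
    rw [mem_union]
    rcases Nat.lt_or_ge n b with h | h
    · right
      rw [mem_Ico]
      refine ⟨?_, h⟩
      by_contra hc
      exact hn.2 (wt_far _ S J hJ n b (by omega))
    · left
      rw [mem_image]
      refine ⟨n - b, ?_, by omega⟩
      rw [mem_filter, mem_range]
      refine ⟨by omega, ?_⟩
      rw [← wt_shift _ _ _ _ h]
      exact hn.2
  refine (card_le_card h1).trans ((card_union_le _ _).trans ?_)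
  have h2 := card_image_le (s := (range (4 * K - S)).filter (fun i => ¬ (∑ j ∈ J, pz B (i + j)) = 0)) (f := fun i => b + i)
  rw [Nat.card_Ico]
  unfold cnt
  omega

end Pool.Agent.J4H40.PB
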