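import Pool.Agent.J4H40.PB.J
set_option autoImplicit false
namespace Pool.Agent.J4H40.PB
open Finset

lemma pow_le_lin (y : ℝ) (m : ℕ) (hy0 : 0 ≤ y) (hy1 : y ≤ 1) (hm : m * y ≤ 1) : (1 - y) ^ m ≤ 1 - m * y / 2 := by
  have h1 : (1 - y) ^ m * (1 + y) ^ m ≤ 1 := by
    rw [← mul_pow]
    apply pow_le_one₀ <;> nlinarith
  have h2 : 1 + m * y ≤ (1 + y) ^ m := one_add_mul_le_pow (by linarith) m
  have h3 : 0 ≤ (1 - y) ^ m := pow_nonneg (by linarith) m
  have h4 : (1 - y) ^ m * (1 + m * y) ≤ 1 := le_trans (by gcongr) h1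
  have h5 : 0 ≤ m * y := by positivity
  have h6 : 1 ≤ (1 - m * y / 2) * (1 + m * y) := by nlinarith
  by_contra hc
  push Not at hc
  have h7 : (1 - m * y / 2) * (1 + m * y) < (1 - y) ^ m * (1 + m * y) := by
    apply mul_lt_mul_of_pos_right hc; linarith
  linarith

/-- the mean of the sum of signs over the window is small enough -/
lemma mean_le (B : Set ℕ) (S : ℕ) (J : Finset ℕ) (hJ : J ⊆ range S) (hJn : J.Nonempty) (K m : ℕ) (hK : 2 * S ≤ K)
    (hK1 : 1 ≤ K) (v : ℕ → ZMod 2) (hreg : 16 * m * max (cnt B J (2 * K)) 1 ≤ 4 * K) (hm : 1 ≤ m) :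
    ∑ n ∈ Ioc (6 * K) (7 * K), chi (v n) *
      ((∑ b ∈ Ioc (4 * K) (2 * (4 * K)), chi (wt (pz B) J n b)) / ((Ioc (4 * K) (2 * (4 * K))).card : ℝ)) ^ m ≤
      K - m * (max (cnt B J (2 * K)) 1 : ℕ) / 4 := by
  classical
  set o : ℕ := max (cnt B J (2 * K)) 1 with ho
  have hcard : ((Ioc (4 * K) (2 * (4 * K))).card : ℝ) = 4 * K := by
    rw [Nat.card_Ioc, show 2 * (4 * K) - 4 * K = 4 * K by omega]; push_cast; ring
  have hK0 : (0 : ℝ) < K := by exact_mod_cast hK1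
  have hregr : 16 * (m : ℝ) * o ≤ 4 * K := by exact_mod_cast hreg
  have ho1 : (1 : ℝ) ≤ o := by exact_mod_cast le_max_right _ _
  have hm1 : (1 : ℝ) ≤ m := by exact_mod_cast hm
  set y : ℝ := 2 * o / (4 * K) with hy
  have hy0 : 0 ≤ y := by positivity
  have hmy : m * y ≤ 1 / 8 := by
    rw [hy, mul_div_assoc', div_le_iff₀ (by positivity)]
    nlinarith
  have hy8 : y ≤ 1 / 8 := by nlinarith
  have hterm : ∀ n ∈ Ioc (6 * K) (7 * K), chi (v n) *
      ((∑ b ∈ Ioc (4 * K) (2 * (4 * K)), chi (wt (pz B) J n b)) / ((Ioc (4 * K) (2 * (4 * K))).card : ℝ)) ^ m ≤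
      1 - m * y / 2 := by
    intro n hn
    rw [mem_Ioc] at hn
    refine (le_abs_self _).trans ?_
    rw [abs_mul, abs_chi, one_mul, abs_pow]
    have h1 : |(∑ b ∈ Ioc (4 * K) (2 * (4 * K)), chi (wt (pz B) J n b)) / ((Ioc (4 * K) (2 * (4 * K))).card : ℝ)| ≤ 1 - y := by
      have e1 : ∑ b ∈ Ioc (4 * K) (2 * (4 * K)), chi (wt (pz B) J n b) =
          4 * K - 2 * (((Ioc (4 * K) (2 * (4 * K))).filter (fun b => ¬ wt (pz B) J n b = 0)).card : ℝ) := by
        rw [sum_congr rfl (fun b _ => chi_rr _), sum_sub_distrib, ← mul_sum, card_filter]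
        push_cast
        rw [sum_const, nsmul_eq_mul, hcard]
        have : ∀ b ∈ Ioc (4 * K) (2 * (4 * K)), rr (wt (pz B) J n b) = if ¬ wt (pz B) J n b = 0 then (1 : ℝ) else 0 := by
          intro b _
          unfold rr
          split_ifs <;> simp_all
        rw [sum_congr rfl this]
        ring
      have h2 := effects_ge B S J hJ hJn K n hK hn.1 hn.2
      have h3 := effects_le B S J hJ K n hK hn.2
      rw [← ho] at h2
      have h2' : (o : ℝ) ≤ (((Ioc (4 * K) (2 * (4 * K))).filter (fun b => ¬ wt (pz B) J n b = 0)).card : ℝ) := by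
        exact_mod_cast h2
      have h3' : 2 * (((Ioc (4 * K) (2 * (4 * K))).filter (fun b => ¬ wt (pz B) J n b = 0)).card : ℝ) ≤ 7 * K := by
        exact_mod_cast h3
      rw [e1, hcard, abs_le]
      have e2 : 1 - y = (4 * K - 2 * o) / (4 * K) := by rw [hy]; field_simp
      have hoK : 16 * (o : ℝ) ≤ 4 * K := by nlinarith
      constructor
      · rw [e2, ← neg_div]
        apply div_le_div_of_nonneg_right _ (by positivity)
        linarith
      · rw [e2]
        apply div_le_div_of_nonneg_right _ (by positivity)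
        linarith
    refine (pow_le_pow_left₀ (abs_nonneg _) h1 m).trans ?_
    exact pow_le_lin y m hy0 (by linarith) (by linarith)
  refine (sum_le_sum hterm).trans ?_
  rw [sum_const, nsmul_eq_mul, Nat.card_Ioc, show 7 * K - 6 * K = K by omega, hy]
  apply le_of_eq
  field_simp

/-- **One block with growth of the new patterns** -/
lemma stage2 (s S K E G L H m : ℕ) (q : ℝ) (hsS : s ≤ S) (hK1 : 1 ≤ K) (hSK : 2 * S ≤ K) (hE : E + S ≤ 2 * (4 * K)) (hG : 1 ≤ G)
    (hL : 4 * K ≤ L * G) (hH : 1 ≤ H) (hq : 0 ≤ q) (hm : 2048 * 2 ^ S * (16 + S) ^ 2 ≤ m)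
    (B : Set ℕ) (hB : ∀ b ∈ B, b ≤ 4 * K)
    (hw : ∀ J ⊆ range s, J.Nonempty → ∀ n n' : ℕ, 4 * K < n → n' ≤ E → n + H ≤ n' →
      |∑ b ∈ Ioc (4 * K) (2 * (4 * K)), chi (wt (pz B) J n b + wt (pz B) J n' b)| ≤ q * (4 * K : ℕ)) :
    ∃ D ⊆ Ioc (4 * K) (2 * (4 * K)), D.card ≤ m ∧
      (∀ J ⊆ range s, J.Nonempty → ∀ N, 4 * K ≤ N → N ≤ E →
        |T (pz (B ∪ (D : Set ℕ))) J (4 * K) N| ≤
          G + √(2 * ((2 : ℝ) ^ s * (L + 1) * (2 * H * (4 * K : ℕ) + ((4 * K : ℕ) : ℝ) ^ 2 * q ^ m) + 1))) ∧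
      (∀ J ⊆ range S, J.Nonempty → 16 * max (cnt B J (2 * K)) 1 ≤ cnt (B ∪ (D : Set ℕ)) J (8 * K - S) ∨
        4 * K < 16 * m * max (cnt B J (2 * K)) 1) := by
  classical
  have hm1 : 1 ≤ m := by
    have : 1 ≤ 2048 * 2 ^ S * (16 + S) ^ 2 := Nat.one_le_iff_ne_zero.2 (by positivity)
    omega
  have hmr : (2048 : ℝ) * 2 ^ S * (16 + S) ^ 2 ≤ m := by exact_mod_cast hm
  have hm0 : (0 : ℝ) < m := by exact_mod_cast hm1
  set o : Finset ℕ → ℕ := fun J => max (cnt B J (2 * K)) 1 with ho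
  have ho1 : ∀ J, (1 : ℝ) ≤ o J := fun J => by
    have : 1 ≤ o J := le_max_right _ _
    exact_mod_cast this
  set 𝒢 := (range S).powerset.filter (fun J => J.Nonempty ∧ 16 * m * o J ≤ 4 * K ∧ cnt B J (4 * K - S) ≤ 16 * o J) with h𝒢
  set Sm : Finset ℕ → (Fin m → ℕ) → ℝ := fun J β =>
    ∑ n ∈ Ioc (6 * K) (7 * K), chi (∑ j ∈ J, pz B (n + j) + ∑ i, wt (pz B) J n (β i)) with hSm
  set μ : Finset ℕ → ℝ := fun J => ∑ n ∈ Ioc (6 * K) (7 * K), chi (∑ j ∈ J, pz B (n + j)) *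
      ((∑ b ∈ Ioc (4 * K) (2 * (4 * K)), chi (wt (pz B) J n b)) / ((Ioc (4 * K) (2 * (4 * K))).card : ℝ)) ^ m with hμ
  have hcard : (Ioc (4 * K) (2 * (4 * K))).card = 4 * K := by rw [Nat.card_Ioc]; omega
  have hvar : ∀ J ∈ 𝒢, ∑ β ∈ Fintype.piFinset (fun _ : Fin m => Ioc (4 * K) (2 * (4 * K))),
      (Sm J β - μ J) ^ 2 / (m * o J / 8) ^ 2 ≤ ((4 * K : ℕ) : ℝ) ^ m * (1 / (4 * 2 ^ S)) := by
    intro J hJ
    rw [h𝒢, mem_filter, mem_powerset] at hJ
    have h1 := variance (m := m) (Ioc (4 * K) (2 * (4 * K))) (Ioc (6 * K) (7 * K)) (fun n => ∑ j ∈ J, pz B (n + j))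
      (wt (pz B) J) (cnt B J (4 * K - S) + S) (by rw [hcard]; omega)
      (fun b hb => effects_col B S J hJ.1 K b hSK (mem_Ioc.1 hb).1)
    rw [← sum_div, div_le_iff₀ (by have := ho1 J; positivity)]
    refine h1.trans ?_
    rw [hcard]
    have h2 : ((cnt B J (4 * K - S) + S : ℕ) : ℝ) ≤ (16 + S) * o J := by
      have h3 : (cnt B J (4 * K - S) : ℝ) ≤ 16 * o J := by exact_mod_cast hJ.2.2.2
      have h4 : (S : ℝ) ≤ S * o J := le_mul_of_one_le_right (by positivity) (ho1 J)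
      push_cast
      linarith
    have h5 : 8 * (m : ℝ) * ((cnt B J (4 * K - S) + S : ℕ) : ℝ) ^ 2 ≤ 1 / (4 * 2 ^ S) * (m * o J / 8) ^ 2 := by
      calc 8 * (m : ℝ) * ((cnt B J (4 * K - S) + S : ℕ) : ℝ) ^ 2
          ≤ 8 * (m : ℝ) * ((16 + (S : ℝ)) * (o J : ℝ)) ^ 2 := by gcongr
        _ = (1 / (4 * 2 ^ S) : ℝ) * ((m : ℝ) * (o J : ℝ) / 8) ^ 2 * (((2048 : ℝ) * 2 ^ S * (16 + (S : ℝ)) ^ 2) / (m : ℝ)) := by
            have := ho1 J
            field_simp
            ring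
        _ ≤ (1 / (4 * 2 ^ S) : ℝ) * ((m : ℝ) * (o J : ℝ) / 8) ^ 2 * 1 := by
            gcongr
            rw [div_le_one hm0]
            exact hmr
        _ = _ := mul_one _
    calc ((4 * K : ℕ) : ℝ) ^ m * (8 * (m : ℝ) * ((cnt B J (4 * K - S) + S : ℕ) : ℝ) ^ 2)
        ≤ ((4 * K : ℕ) : ℝ) ^ m * (1 / (4 * 2 ^ S) * ((m : ℝ) * (o J : ℝ) / 8) ^ 2) := by gcongr
      _ = ((4 * K : ℕ) : ℝ) ^ m * (1 / (4 * 2 ^ S)) * ((m : ℝ) * (o J : ℝ) / 8) ^ 2 := by ring
  set C : (Fin m → ℕ) → ℝ := fun β => ∑ J ∈ 𝒢, (Sm J β - μ J) ^ 2 / (m * o J / 8) ^ 2 with hC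
  have hC0 : ∀ β, 0 ≤ C β := fun β => sum_nonneg fun J _ => by positivity
  have hC1 : ∑ β ∈ Fintype.piFinset (fun _ : Fin m => Ioc (4 * K) (2 * (4 * K))), C β ≤ ((4 * K : ℕ) : ℝ) ^ m / 4 := by
    simp only [hC]
    rw [sum_comm]
    refine (sum_le_sum hvar).trans ?_
    rw [sum_const, nsmul_eq_mul]
    have h1 : (𝒢.card : ℝ) ≤ 2 ^ S := by
      have : 𝒢.card ≤ 2 ^ S := by
        refine (card_filter_le _ _).trans ?_
        rw [card_powerset, card_range]
      exact_mod_cast this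
    calc (𝒢.card : ℝ) * (((4 * K : ℕ) : ℝ) ^ m * (1 / (4 * 2 ^ S)))
        ≤ 2 ^ S * (((4 * K : ℕ) : ℝ) ^ m * (1 / (4 * 2 ^ S))) := by gcongr
      _ = _ := by field_simp
  set 𝒥 := (range s).powerset.filter (fun J => J.Nonempty) with h𝒥
  obtain ⟨β, hβ, hCβ, h1⟩ := pick2 𝒥 (fun J n => ∑ j ∈ J, pz B (n + j)) (wt (pz B)) (4 * K) E G L H m q (by omega)
    (by omega) hG hL hH hq (fun J hJ n n' h1 h2 h3 => by
      rw [h𝒥, mem_filter, mem_powerset] at hJ
      exact hw J hJ.1 hJ.2 n n' h1 h2 h3) C hC0 hC1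
  obtain ⟨D, hD, hDm, hDf⟩ := odd_set (Ioc (4 * K) (2 * (4 * K))) β hβ
  have hval : ∀ J ⊆ range S, ∀ n, n + S ≤ 2 * (4 * K) → ∑ j ∈ J, pz (B ∪ (D : Set ℕ)) (n + j) =
      ∑ j ∈ J, pz B (n + j) + ∑ i, wt (pz B) J n (β i) := by
    intro J hJ n hn
    rw [← hDf (fun b => wt (pz B) J n b)]
    unfold wt
    rw [sum_comm, ← sum_add_distrib]
    apply sum_congr rfl
    intro j hj
    have hj' := mem_range.1 (hJ hj)
    rw [pz_union B (4 * K) hB D (fun d hd => (mem_Ioc.1 (hD hd)).1) (n + j) (by omega)]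
  refine ⟨D, hD, hDm, ?_, ?_⟩
  · intro J hJ hJn N hN1 hN2
    have hJ' : J ∈ 𝒥 := by rw [h𝒥, mem_filter, mem_powerset]; exact ⟨hJ, hJn⟩
    have h2 := h1 J hJ' N hN1 hN2
    have h3 : T (pz (B ∪ (D : Set ℕ))) J (4 * K) N =
        ∑ n ∈ Ioc (4 * K) N, chi (∑ j ∈ J, pz B (n + j) + ∑ i, wt (pz B) J n (β i)) := by
      unfold T
      apply sum_congr rfl
      intro n hn
      rw [mem_Ioc] at hn
      rw [hval J (hJ.trans (range_subset_range.2 hsS)) n (by omega)]
    rw [h3]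
    refine h2.trans ?_
    gcongr
    have h4 : 𝒥.card ≤ 2 ^ s := by
      refine (card_filter_le _ _).trans ?_
      rw [card_powerset, card_range]
    exact_mod_cast h4
  · intro J hJ hJn
    by_cases hreg : 16 * m * o J ≤ 4 * K
    · left
      rcases Nat.lt_or_ge (16 * o J) (cnt B J (4 * K - S)) with ho2 | ho2
      · refine ho2.le.trans ?_
        have e1 : cnt B J (4 * K - S) = cnt (B ∪ (D : Set ℕ)) J (4 * K - S) := by
          unfold cnt
          congr 1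
          apply filter_congr
          intro i hi
          rw [mem_range] at hi
          have e2 : ∑ j ∈ J, pz B (i + j) = ∑ j ∈ J, pz (B ∪ (D : Set ℕ)) (i + j) := by
            apply sum_congr rfl
            intro j hj
            have := mem_range.1 (hJ hj)
            apply pz_congr
            intro a ha
            constructor
            · exact Or.inl
            · rintro (h | h)
              · exact h
              · have := (mem_Ioc.1 (hD (mem_coe.1 h))).1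
                omega
          rw [e2]
        rw [e1]
        exact cnt_mono _ _ (by omega)
      · have hJG : J ∈ 𝒢 := by
          rw [h𝒢, mem_filter, mem_powerset]
          exact ⟨hJ, hJn, hreg, ho2⟩
        have h2 : (Sm J β - μ J) ^ 2 / (m * o J / 8) ^ 2 < 1 :=
          lt_of_le_of_lt (single_le_sum (f := fun J => (Sm J β - μ J) ^ 2 / (m * o J / 8) ^ 2)
            (fun J _ => by positivity) hJG) hCβ
        have ht0 : (0 : ℝ) < m * o J / 8 := by have := ho1 J; positivity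
        rw [div_lt_one (by positivity)] at h2
        have h3 : Sm J β - μ J < m * o J / 8 := by
          have := abs_lt_of_sq_lt_sq h2 ht0.le
          exact (abs_lt.1 this).2
        have h4 : μ J ≤ K - m * o J / 4 := mean_le B S J hJ hJn K m hSK hK1 _ hreg hm1
        have e1 : Sm J β = K - 2 * (((Ioc (6 * K) (7 * K)).filter (fun n => ¬ (∑ j ∈ J, pz (B ∪ (D : Set ℕ)) (n + j)) = 0)).card : ℝ) := by
          simp only [hSm]
          have e2 : ∀ n ∈ Ioc (6 * K) (7 * K), chi (∑ j ∈ J, pz B (n + j) + ∑ i, wt (pz B) J n (β i)) =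
              1 - 2 * (if ¬ (∑ j ∈ J, pz (B ∪ (D : Set ℕ)) (n + j)) = 0 then (1 : ℝ) else 0) := by
            intro n hn
            rw [mem_Ioc] at hn
            rw [← hval J hJ n (by omega), chi_rr]
            unfold rr
            split_ifs <;> simp_all
          rw [sum_congr rfl e2, sum_sub_distrib, ← mul_sum, card_filter]
          push_cast
          rw [sum_const, nsmul_eq_mul, Nat.card_Ioc, show 7 * K - 6 * K = K by omega]
          ring
        have h5 : (16 : ℝ) * o J ≤ (((Ioc (6 * K) (7 * K)).filter (fun n => ¬ (∑ j ∈ J, pz (B ∪ (D : Set ℕ)) (n + j)) = 0)).card : ℝ) := by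
          have h6 : (256 : ℝ) ≤ m := by
            refine le_trans ?_ hmr
            have h7 : (1 : ℝ) ≤ 2 ^ S := one_le_pow₀ (by norm_num)
            have h8 : (0 : ℝ) ≤ S := by positivity
            have h9 : (1 : ℝ) ≤ (16 + S) ^ 2 := by nlinarith
            nlinarith
          have h7 : 256 * (o J : ℝ) ≤ m * o J := by
            have := ho1 J
            gcongr
          linarith
        have h6 : 16 * o J ≤ ((Ioc (6 * K) (7 * K)).filter (fun n => ¬ (∑ j ∈ J, pz (B ∪ (D : Set ℕ)) (n + j)) = 0)).card := by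
          exact_mod_cast h5
        refine h6.trans ?_
        unfold cnt
        apply card_le_card
        intro n hn
        rw [mem_filter, mem_Ioc] at hn
        rw [mem_filter, mem_range]
        exact ⟨by omega, hn.2⟩
    · right
      exact not_le.1 hreg

end Pool.Agent.J4H40.PB
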