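import Pool.Agent.J4H40.PB.K
set_option autoImplicit false
namespace Pool.Agent.J4H40.PB
open Finset

/-- the patterns of length `s` have density at least `c` from `X` on -/
def Dens (s S : ℕ) (B : Set ℕ) (k X : ℕ) (c : ℝ) : Prop :=
  ∀ J ⊆ range s, J.Nonempty → ∀ x : ℕ, X ≤ x → x + S ≤ 2 ^ k → c * x ≤ cnt B J x

lemma dens_w (S M E H R : ℕ) (B : Set ℕ) (J : Finset ℕ) (hJ : J ⊆ range S) (hM : 1 ≤ M)
    (hR : R ≤ cnt B J (H - S)) (hR2 : R + E + S ≤ 2 * M)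
    (n n' : ℕ) (h1 : M < n) (h2 : n' ≤ E) (h3 : n + H ≤ n') :
    |∑ b ∈ Ioc M (2 * M), chi (wt (pz B) J n b + wt (pz B) J n' b)| ≤ (1 - 2 * R / (M : ℝ)) * M := by
  classical
  have hcard : ((Ioc M (2 * M)).card : ℝ) = M := by rw [Nat.card_Ioc, show 2 * M - M = M by omega]
  have h4 := sum_chi_le (Ioc M (2 * M)) (fun b => wt (pz B) J n b + wt (pz B) J n' b) R ?_ ?_
  · rw [hcard] at h4
    have hM0 : (M : ℝ) ≠ 0 := by positivity
    have e : (1 - 2 * R / (M : ℝ)) * M = M - 2 * R := by field_simp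
    rw [e]
    exact h4
  · have h5 : Ioc (n' + S) (2 * M) ⊆ (Ioc M (2 * M)).filter (fun b => wt (pz B) J n b + wt (pz B) J n' b = 0) := by
      intro b hb
      rw [mem_Ioc] at hb
      rw [mem_filter, mem_Ioc]
      refine ⟨by omega, ?_⟩
      rw [wt_far _ S J hJ n b (by omega), wt_far _ S J hJ n' b (by omega), add_zero]
    refine le_trans ?_ (card_le_card h5)
    rw [Nat.card_Ioc]
    omega
  · refine hR.trans ?_
    unfold cnt
    apply card_le_card_of_injOn (fun i => n' - i)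
    · intro i hi
      simp only [coe_filter, mem_range, Set.mem_ofPred_eq] at hi
      simp only [coe_filter, mem_Ioc, Set.mem_ofPred_eq]
      refine ⟨by omega, ?_⟩
      rw [wt_far _ S J hJ n _ (by omega), zero_add, wt_shift _ _ _ _ (by omega), show n' - (n' - i) = i by omega]
      exact hi.2
    · intro i hi i' hi' h
      simp only [coe_filter, mem_range, Set.mem_ofPred_eq] at hi hi'
      simp only at h
      omega

/-- **One block of the level `s`** -/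
lemma E5 (s S : ℕ) (hsS : s ≤ S) (δ c : ℝ) (hδ : 0 < δ) (hc : 0 < c) : ∃ h m K0 : ℕ, ∀ k ≥ K0, ∀ B : Set ℕ,
    (∀ b ∈ B, b ≤ 2 ^ k) → Dens s S B k (2 ^ (k - h) - S) c →
    ∃ D ⊆ Ioc (2 ^ k) (2 ^ (k + 1)), D.card ≤ m ∧ Qual s (B ∪ (D : Set ℕ)) k δ ∧
      ∀ J ⊆ range S, J.Nonempty → 16 * max (cnt B J (2 ^ (k - 1))) 1 ≤ cnt (B ∪ (D : Set ℕ)) J (2 ^ (k + 1) - S) ∨
        2 ^ k < 16 * m * max (cnt B J (2 ^ (k - 1))) 1 := by
  obtain ⟨g, hg⟩ := exists_small (δ / 4) (by linarith)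
  obtain ⟨h, hh⟩ := exists_small (δ ^ 2 / (256 * 2 ^ s * (2 ^ g + 1))) (by positivity)
  obtain ⟨r, hr⟩ := exists_small (min (c * (1 / 2) ^ h / 2) ((1 / 2) ^ g / 2)) (by positivity)
  have hr1 : (1 / 2 : ℝ) ^ r ≤ c * (1 / 2) ^ h / 2 := hr.trans (min_le_left _ _)
  have hr2 : (1 / 2 : ℝ) ^ r ≤ (1 / 2) ^ g / 2 := hr.trans (min_le_right _ _)
  have hrg : g < r := by
    by_contra hcon
    push Not at hcon
    have h1 : (1 / 2 : ℝ) ^ g ≤ (1 / 2) ^ r := pow_le_pow_of_le_one (by norm_num) (by norm_num) hcon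
    have h2 : (0 : ℝ) < (1 / 2) ^ g := by positivity
    linarith
  have hq1 : (1 : ℝ) - 2 * (1 / 2) ^ r < 1 := by
    have : (0 : ℝ) < (1 / 2) ^ r := by positivity
    linarith
  have hq0 : (0 : ℝ) ≤ 1 - 2 * (1 / 2) ^ r := by
    have h1 : ((1 : ℝ) / 2) ^ r ≤ (1 / 2) ^ 1 := pow_le_pow_of_le_one (by norm_num) (by norm_num) (by omega)
    linarith
  obtain ⟨m1, hm1⟩ := exists_pow_lt_of_lt_one (show (0 : ℝ) < δ ^ 2 / (128 * 2 ^ s * (2 ^ g + 1)) by positivity) hq1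
  set m := max m1 (2048 * 2 ^ S * (16 + S) ^ 2) with hm
  obtain ⟨K1, hK1⟩ := exists_nat_gt (64 / δ ^ 2)
  obtain ⟨K2, hK2⟩ := lin_pow (2 * S + 2) (h + r + g + 4)
  refine ⟨h, m, K1 + K2 + h + g + r + 2 * S + 8, fun k hk B hB hdens => ?_⟩
  have hkk : k < 2 ^ k := Nat.lt_two_pow_self
  have hM0 : (0 : ℝ) < 2 ^ k := by positivity
  have epow : ∀ a : ℕ, a ≤ k → ((2 ^ (k - a) : ℕ) : ℝ) = (1 / 2) ^ a * 2 ^ k := by
    intro a ha
    push_cast
    have : (2 : ℝ) ^ k = 2 ^ (k - a) * 2 ^ a := by rw [← pow_add]; congr 1; omega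
    rw [this, div_pow, one_pow]
    field_simp
  have hbig : 2 * S + 2 ≤ 2 ^ (k - (h + r + g + 4)) := by
    have h1 := hK2 k (by omega)
    have h2 : (1 : ℝ) ≤ k := by exact_mod_cast (by omega : 1 ≤ k)
    have h3 : ((2 * S + 2 : ℕ) : ℝ) ≤ ((2 ^ (k - (h + r + g + 4)) : ℕ) : ℝ) := by
      push_cast
      have h4 : (0 : ℝ) ≤ 2 * S + 2 := by positivity
      nlinarith
    exact_mod_cast h3
  have hle : ∀ a : ℕ, a ≤ h + r + g + 4 → 2 * S + 2 ≤ 2 ^ (k - a) := by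
    intro a ha
    exact hbig.trans (Nat.pow_le_pow_right (by norm_num) (by omega))
  have eK : 4 * 2 ^ (k - 2) = 2 ^ k := by
    rw [show (4 : ℕ) = 2 ^ 2 by norm_num, ← pow_add]; congr 1; omega
  have eK2 : 2 * 2 ^ (k - 2) = 2 ^ (k - 1) := by
    rw [← pow_succ']; congr 1; omega
  have eK8 : 8 * 2 ^ (k - 2) = 2 ^ (k + 1) := by
    rw [show (8 : ℕ) = 2 ^ 3 by norm_num, ← pow_add]; congr 1; omega
  have e2M : 2 * 2 ^ k = 2 ^ (k + 1) := by ring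
  have hHS : (2 : ℝ) * S ≤ ((2 ^ (k - h) : ℕ) : ℝ) := by
    have := hle h (by omega)
    have h2 : ((2 * S : ℕ) : ℝ) ≤ ((2 ^ (k - h) : ℕ) : ℝ) := by exact_mod_cast (by omega : 2 * S ≤ 2 ^ (k - h))
    push_cast at h2 ⊢
    exact h2
  have hSg : 2 * S + 2 ≤ 2 ^ (k - g) := hle g (by omega)
  have hSh : 2 * S + 2 ≤ 2 ^ (k - h) := hle h (by omega)
  have hgk : 2 ^ (k - g) ≤ 2 ^ k := Nat.pow_le_pow_right (by norm_num) (by omega)
  have hrgk : 2 * 2 ^ (k - r) ≤ 2 ^ (k - g) := by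
    rw [← pow_succ']
    exact Nat.pow_le_pow_right (by norm_num) (by omega)
  set E := 2 ^ (k + 1) - 2 ^ (k - g) with hE
  have hRcnt : ∀ J ⊆ range s, J.Nonempty → 2 ^ (k - r) ≤ cnt B J (2 ^ (k - h) - S) := by
    intro J hJ hJn
    have hhk : 2 ^ (k - h) ≤ 2 ^ k := Nat.pow_le_pow_right (by norm_num) (by omega)
    have h1 := hdens J hJ hJn (2 ^ (k - h) - S) le_rfl (by omega)
    have h2 : ((2 ^ (k - h) - S : ℕ) : ℝ) = ((2 ^ (k - h) : ℕ) : ℝ) - S := by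
      rw [Nat.cast_sub (by omega)]
    rw [h2] at h1
    have h3 : ((2 ^ (k - r) : ℕ) : ℝ) ≤ (cnt B J (2 ^ (k - h) - S) : ℝ) := by
      refine le_trans ?_ h1
      have h4 : ((2 ^ (k - h) : ℕ) : ℝ) / 2 ≤ ((2 ^ (k - h) : ℕ) : ℝ) - S := by linarith
      refine le_trans ?_ (mul_le_mul_of_nonneg_left h4 hc.le)
      rw [epow r (by omega), epow h (by omega)]
      nlinarith
    exact_mod_cast h3
  obtain ⟨D, hD, hDc, h1, h2⟩ := stage2 s S (2 ^ (k - 2)) E (2 ^ (k - g)) (2 ^ g) (2 ^ (k - h)) m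
    (1 - 2 * ((2 ^ (k - r) : ℕ) : ℝ) / ((4 * 2 ^ (k - 2) : ℕ) : ℝ)) hsS Nat.one_le_two_pow
    (by have := hle 2 (by omega); omega) (by rw [eK]; omega) Nat.one_le_two_pow
    (by rw [eK, ← pow_add]; exact Nat.pow_le_pow_right (by norm_num) (by omega)) Nat.one_le_two_pow
    (by
      rw [eK, epow r (by omega)]
      push_cast
      have e : 2 * ((1 / 2) ^ r * (2 : ℝ) ^ k) / 2 ^ k = 2 * (1 / 2) ^ r := by field_simp
      rw [e]
      exact hq0)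
    (le_max_right _ _) B (by rw [eK]; exact hB)
    (fun J hJ hJn n n' a1 a2 a3 => by
      have := dens_w S (4 * 2 ^ (k - 2)) E (2 ^ (k - h)) (2 ^ (k - r)) B J (hJ.trans (range_subset_range.2 hsS))
        (by rw [eK]; exact Nat.one_le_two_pow) (hRcnt J hJ hJn) (by rw [eK]; omega) n n' a1 a2 a3
      exact this)
  rw [eK, e2M] at hD
  refine ⟨D, hD, hDc, ?_, ?_⟩
  · -- the quality
    have hq : (1 - 2 * ((2 ^ (k - r) : ℕ) : ℝ) / ((4 * 2 ^ (k - 2) : ℕ) : ℝ)) = 1 - 2 * (1 / 2) ^ r := by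
      rw [eK, epow r (by omega)]
      push_cast
      field_simp
    rw [hq] at h1
    simp only [eK] at h1
    have hEbound : ∀ J ⊆ range s, J.Nonempty → ∀ N, 2 ^ k ≤ N → N ≤ E → |T (pz (B ∪ (D : Set ℕ))) J (2 ^ k) N| ≤ δ / 2 * 2 ^ k := by
      intro J hJ hJn N hN1 hN2
      refine (h1 J hJ hJn N hN1 hN2).trans ?_
      have h3 : (((2 ^ (k - g) : ℕ) : ℝ)) ≤ δ / 4 * 2 ^ k := by
        rw [epow g (by omega)]
        gcongr
      have h4 : √(2 * ((2 : ℝ) ^ s * (((2 ^ g : ℕ) : ℝ) + 1) * (2 * ((2 ^ (k - h) : ℕ) : ℝ) * ((2 ^ k : ℕ) : ℝ) +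
          (((2 ^ k : ℕ) : ℝ)) ^ 2 * (1 - 2 * (1 / 2) ^ r) ^ m) + 1)) ≤ δ / 4 * 2 ^ k := by
        rw [Real.sqrt_le_left (by positivity)]
        have h5 : (1 - 2 * (1 / 2 : ℝ) ^ r) ^ m ≤ δ ^ 2 / (128 * 2 ^ s * (2 ^ g + 1)) := by
          calc (1 - 2 * (1 / 2 : ℝ) ^ r) ^ m ≤ (1 - 2 * (1 / 2) ^ r) ^ m1 :=
                pow_le_pow_of_le_one hq0 hq1.le (le_max_left _ _)
            _ ≤ _ := hm1.le
        have h7 : (1 : ℝ) ≤ δ ^ 2 / 64 * (2 ^ k) ^ 2 := by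
          have h8 : (K1 : ℝ) ≤ k := by exact_mod_cast (by omega : K1 ≤ k)
          have h9 : (k : ℝ) ≤ 2 ^ k := by exact_mod_cast hkk.le
          have h10 : 64 / δ ^ 2 ≤ (2 : ℝ) ^ k := by linarith
          have h11 : (1 : ℝ) ≤ 2 ^ k := one_le_pow₀ (by norm_num)
          rw [div_le_iff₀ (by positivity)] at h10
          nlinarith
        have h6 : 2 * ((2 : ℝ) ^ s * (((2 ^ g : ℕ) : ℝ) + 1) * (2 * ((2 ^ (k - h) : ℕ) : ℝ) * ((2 ^ k : ℕ) : ℝ) +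
          (((2 ^ k : ℕ) : ℝ)) ^ 2 * (1 - 2 * (1 / 2) ^ r) ^ m) + 1) ≤
            2 * ((2 : ℝ) ^ s * (2 ^ g + 1) * (2 * (δ ^ 2 / (256 * 2 ^ s * (2 ^ g + 1)) * 2 ^ k) * 2 ^ k +
              (2 ^ k) ^ 2 * (δ ^ 2 / (128 * 2 ^ s * (2 ^ g + 1)))) + δ ^ 2 / 64 * (2 ^ k) ^ 2) := by
          rw [epow h (by omega)]
          push_cast
          gcongr
        refine h6.trans (le_of_eq ?_)
        field_simp
        ring
      linarith
    intro J hJ hJn N hN1 hN2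
    rcases Nat.lt_or_ge E N with hN | hN
    · have hE1 : 2 ^ k ≤ E := by omega
      rw [T_split _ _ hE1 hN.le]
      refine (abs_add_le _ _).trans ?_
      have h3 := hEbound J hJ hJn E hE1 le_rfl
      have h4 := T_abs (pz (B ∪ (D : Set ℕ))) J E N
      have h5 : ((N - E : ℕ) : ℝ) ≤ ((2 ^ (k - g) : ℕ) : ℝ) := by exact_mod_cast (by omega : N - E ≤ 2 ^ (k - g))
      have h6 : (((2 ^ (k - g) : ℕ) : ℝ)) ≤ δ / 4 * 2 ^ k := by
        rw [epow g (by omega)]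
        gcongr
      have h7 : 0 < δ * 2 ^ k := by positivity
      linarith
    · have h3 := hEbound J hJ hJn N hN1 hN
      have h7 : 0 < δ * 2 ^ k := by positivity
      linarith
  · intro J hJ hJn
    have h3 := h2 J hJ hJn
    rwa [eK2, eK8, eK] at h3

end Pool.Agent.J4H40.PB
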