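import Pool.Agent.J4H40.PB.L
set_option autoImplicit false
namespace Pool.Agent.J4H40.PB
open Finset

lemma cnt_congr {B C : Set ℕ} {J : Finset ℕ} {S x k : ℕ} (hJ : J ⊆ range S) (h : ∀ i ≤ 2 ^ k, i ∈ B ↔ i ∈ C)
    (hx : x + S ≤ 2 ^ k) : cnt B J x = cnt C J x := by
  unfold cnt
  congr 1
  apply filter_congr
  intro i hi
  rw [mem_range] at hi
  have e2 : ∑ j ∈ J, pz B (i + j) = ∑ j ∈ J, pz C (i + j) := by
    apply sum_congr rfl
    intro j hj
    have := mem_range.1 (hJ hj)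
    exact pz_congr fun a ha => h a (by omega)
  rw [e2]

/-- the balanced blocks keep the density -/
lemma persist (s S κ k X : ℕ) (hsS : s ≤ S) (c : ℝ) (hc0 : 0 < c) (hc : c ≤ 1 / 8) (hκS : 64 * (S + 1) ≤ 2 ^ κ)
    (A B : Set ℕ) (hAB : ∀ i ≤ 2 ^ κ, i ∈ A ↔ i ∈ B) (hA : Dens s S A κ X c)
    (hQ : ∀ l, κ ≤ l → l < k → Qual s B l (1 / 16)) (hX : X + S ≤ 2 ^ κ) : Dens s S B k X (c / 2) := by
  intro J hJ hJn x hx1 hx2
  have hJS : J ⊆ range S := hJ.trans (range_subset_range.2 hsS)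
  have hx0 : (0 : ℝ) ≤ x := by positivity
  rcases Nat.lt_or_ge (2 ^ κ) (x + S) with h | h
  · rcases Nat.lt_or_ge x (2 * (2 ^ κ - S)) with h1 | h1
    · have h2 := hA J hJ hJn (2 ^ κ - S) (by omega) (by omega)
      rw [cnt_congr (k := κ) hJS hAB (by omega)] at h2
      have h3 : cnt B J (2 ^ κ - S) ≤ cnt B J x := cnt_mono _ _ (by omega)
      have h4 : (cnt B J (2 ^ κ - S) : ℝ) ≤ cnt B J x := by exact_mod_cast h3
      have h5 : (x : ℝ) ≤ 2 * ((2 ^ κ - S : ℕ) : ℝ) := by exact_mod_cast h1.le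
      nlinarith
    · -- a complete block
      have hlog1 : 2 ^ Nat.log 2 (x + 2 * S) ≤ x + 2 * S := Nat.pow_log_le_self 2 (by omega)
      have hlog2 : x + 2 * S < 2 ^ (Nat.log 2 (x + 2 * S) + 1) := Nat.lt_pow_succ_log_self (by norm_num) _
      obtain ⟨L, hL⟩ : ∃ L, L = Nat.log 2 (x + 2 * S) := ⟨_, rfl⟩
      rw [← hL] at hlog1 hlog2
      have hκL : κ + 1 ≤ L := by
        by_contra hcon
        push Not at hcon
        have h2 : 2 ^ (L + 1) ≤ 2 ^ (κ + 1) := Nat.pow_le_pow_right (by norm_num) (by omega)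
        have h3 : 2 ^ (κ + 1) = 2 * 2 ^ κ := by ring
        omega
      obtain ⟨l, rfl⟩ : ∃ l, L = l + 1 := ⟨L - 1, by omega⟩
      have hlk : l < k := by
        by_contra hcon
        push Not at hcon
        have h2 : 2 ^ (k + 1) ≤ 2 ^ (l + 1) := Nat.pow_le_pow_right (by norm_num) (by omega)
        have h3 : 2 ^ (k + 1) = 2 * 2 ^ k := by ring
        have h4 : 2 ^ κ ≤ 2 ^ k := by omega
        omega
      have hκl : 2 ^ κ ≤ 2 ^ l := Nat.pow_le_pow_right (by norm_num) (by omega)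
      have e1 : 2 ^ (l + 1) = 2 * 2 ^ l := by ring
      have e2 : 2 ^ (l + 1 + 1) = 4 * 2 ^ l := by ring
      set N := 2 ^ (l + 1) - 2 * S - 1 with hN
      have hN1 : 2 ^ l ≤ N := by omega
      have h2 := hQ l (by omega) hlk J hJ hJn N hN1 (by omega)
      have h3 : T (pz B) J (2 ^ l) N = ((N - 2 ^ l : ℕ) : ℝ) -
          2 * (((Ioc (2 ^ l) N).filter (fun n => ¬ (∑ j ∈ J, pz B (n + j)) = 0)).card : ℝ) := by
        unfold T
        rw [sum_congr rfl (fun n _ => chi_rr _), sum_sub_distrib, ← mul_sum, card_filter]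
        push_cast
        rw [sum_const, nsmul_eq_mul, Nat.card_Ioc]
        have : ∀ n ∈ Ioc (2 ^ l) N, rr (∑ j ∈ J, pz B (n + j)) = if ¬ (∑ j ∈ J, pz B (n + j)) = 0 then (1 : ℝ) else 0 := by
          intro n _
          unfold rr
          split_ifs <;> simp_all
        rw [sum_congr rfl this]
        ring
      have h4 : ((Ioc (2 ^ l) N).filter (fun n => ¬ (∑ j ∈ J, pz B (n + j)) = 0)).card ≤ cnt B J x := by
        unfold cnt
        apply card_le_card
        intro n hn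
        rw [mem_filter, mem_Ioc] at hn
        rw [mem_filter, mem_range]
        exact ⟨by omega, hn.2⟩
      have h4' : (((Ioc (2 ^ l) N).filter (fun n => ¬ (∑ j ∈ J, pz B (n + j)) = 0)).card : ℝ) ≤ cnt B J x := by
        exact_mod_cast h4
      have h5 := (abs_le.1 h2).2
      rw [h3] at h5
      have h6 : ((N - 2 ^ l : ℕ) : ℝ) = 2 ^ l - 2 * S - 1 := by
        have : N - 2 ^ l + (2 * S + 1) = 2 ^ l := by omega
        have h7 : ((N - 2 ^ l + (2 * S + 1) : ℕ) : ℝ) = ((2 ^ l : ℕ) : ℝ) := by exact_mod_cast this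
        push_cast at h7
        linarith
      rw [h6] at h5
      have h7 : (64 : ℝ) * (S + 1) ≤ 2 ^ l := by
        have : 64 * (S + 1) ≤ 2 ^ l := by omega
        exact_mod_cast this
      have h8 : (x : ℝ) ≤ 4 * 2 ^ l := by
        have : x ≤ 4 * 2 ^ l := by omega
        exact_mod_cast this
      have h9 : (0 : ℝ) ≤ S := by positivity
      have h10 : c / 2 * x ≤ 1 / 16 * (4 * 2 ^ l) := by
        have : c / 2 ≤ 1 / 16 := by linarith
        gcongr
      linarith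
  · have h2 := hA J hJ hJn x hx1 h
    rw [cnt_congr (k := κ) hJS hAB h] at h2
    nlinarith

/-- the growth of the new patterns -/
lemma grow (S κ κ' m : ℕ) (hm : 64 * m ≤ 2 ^ (2 * κ)) (hκ : 1 ≤ κ) (hS : 2 * S ≤ 2 ^ κ) (B : ℕ → Set ℕ)
    (hB : ∀ l, κ ≤ l → l ≤ κ' → ∀ i ≤ 2 ^ l, i ∈ B l ↔ i ∈ B κ')
    (hG : ∀ l, κ ≤ l → l < κ' → ∀ J ⊆ range S, J.Nonempty →
      16 * max (cnt (B l) J (2 ^ (l - 1))) 1 ≤ cnt (B (l + 1)) J (2 ^ (l + 1) - S) ∨
        2 ^ l < 16 * m * max (cnt (B l) J (2 ^ (l - 1))) 1) :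
    Dens S (S + 1) (B κ') κ' (2 ^ (2 * κ + 1)) (1 / (128 * ((m : ℝ) + 1))) := by
  intro J hJ hJn x hx1 hx2
  have hx0 : x ≠ 0 := by
    have : 0 < 2 ^ (2 * κ + 1) := by positivity
    omega
  set a : ℕ → ℕ := fun l => max (cnt (B κ') J (2 ^ l)) 1 with ha
  have ha1 : ∀ l, 1 ≤ a l := fun l => le_max_right _ _
  have hstep : ∀ l, κ ≤ l → l < κ' → 16 * a (l - 1) ≤ a (l + 1) ∨ 2 ^ l < 16 * m * a (l - 1) := by
    intro l h1 h2
    have hpl : 2 ^ κ ≤ 2 ^ l := Nat.pow_le_pow_right (by norm_num) h1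
    have e : 2 * 2 ^ (l - 1) = 2 ^ l := by rw [← pow_succ']; congr 1; omega
    have h3 := hG l h1 h2 J hJ hJn
    rw [cnt_congr (k := l) hJ (hB l h1 h2.le) (by omega), cnt_congr (k := l + 1) hJ (hB (l + 1) (by omega) h2) (by
      have : 2 ^ (l + 1) = 2 * 2 ^ l := by ring
      omega)] at h3
    rcases h3 with h3 | h3
    · left
      refine h3.trans ((cnt_mono _ _ ?_).trans (le_max_left _ _))
      omega
    · right; exact h3
  have hclaim : ∀ l, κ ≤ l + 1 → l ≤ κ' → (4 ^ l ≤ 4 ^ κ * a l ∨ 2 ^ l ≤ 64 * m * a l) ∧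
      (l + 1 ≤ κ' → (4 ^ (l + 1) ≤ 4 ^ κ * a (l + 1) ∨ 2 ^ (l + 1) ≤ 64 * m * a (l + 1))) := by
    intro l hl
    have hbase : ∀ l ≤ κ, 4 ^ l ≤ 4 ^ κ * a l := by
      intro l hl
      calc 4 ^ l ≤ 4 ^ κ * 1 := by rw [mul_one]; exact Nat.pow_le_pow_right (by norm_num) hl
        _ ≤ _ := Nat.mul_le_mul_left _ (ha1 l)
    obtain ⟨d, rfl⟩ : ∃ d, l = κ - 1 + d := ⟨l - (κ - 1), by omega⟩
    induction d with
    | zero =>
      intro _
      exact ⟨Or.inl (hbase _ (by omega)), fun _ => Or.inl (hbase _ (by omega))⟩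
    | succ d ih =>
      intro h1
      obtain ⟨ih1, ih2⟩ := ih (by omega) (by omega)
      refine ⟨ih2 (by omega), fun h2 => ?_⟩
      have h3 := hstep (κ - 1 + d + 1) (by omega) (by omega)
      rw [show κ - 1 + d + 1 - 1 = κ - 1 + d by omega] at h3
      rw [show κ - 1 + (d + 1) + 1 = κ - 1 + d + 1 + 1 by omega]
      have e4 : 4 ^ (κ - 1 + d + 1 + 1) = 16 * 4 ^ (κ - 1 + d) := by ring
      have e2 : 2 ^ (κ - 1 + d + 1 + 1) = 4 * 2 ^ (κ - 1 + d) := by ring
      have e2' : 2 ^ (κ - 1 + d + 1) = 2 * 2 ^ (κ - 1 + d) := by ring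
      rcases h3 with h3 | h3
      · rcases ih1 with h4 | h4
        · left
          rw [e4]
          calc 16 * 4 ^ (κ - 1 + d) ≤ 16 * (4 ^ κ * a (κ - 1 + d)) := by omega
            _ = 4 ^ κ * (16 * a (κ - 1 + d)) := by ring
            _ ≤ _ := Nat.mul_le_mul_left _ h3
        · right
          rw [e2]
          calc 4 * 2 ^ (κ - 1 + d) ≤ 4 * (64 * m * a (κ - 1 + d)) := by omega
            _ ≤ 64 * m * (16 * a (κ - 1 + d)) := by nlinarith
            _ ≤ _ := Nat.mul_le_mul_left _ h3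
      · right
        have h5 : a (κ - 1 + d) ≤ a (κ - 1 + d + 1 + 1) := by
          simp only [ha]
          apply max_le_max _ le_rfl
          apply cnt_mono
          exact Nat.pow_le_pow_right (by norm_num) (by omega)
        calc 2 ^ (κ - 1 + d + 1 + 1) ≤ 2 * (16 * m * a (κ - 1 + d)) := by omega
          _ ≤ 64 * m * a (κ - 1 + d) := by nlinarith
          _ ≤ _ := Nat.mul_le_mul_left _ h5
  -- the conclusion at `x`
  set l := Nat.log 2 x with hl
  have hl1 : 2 ^ l ≤ x := Nat.pow_log_le_self 2 hx0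
  have hl2 : x < 2 ^ (l + 1) := Nat.lt_pow_succ_log_self (by norm_num) _
  have hl3 : 2 * κ + 1 ≤ l := by
    by_contra hcon
    push Not at hcon
    have : 2 ^ (l + 1) ≤ 2 ^ (2 * κ + 1) := Nat.pow_le_pow_right (by norm_num) (by omega)
    omega
  have hl4 : l < κ' := by
    by_contra hcon
    push Not at hcon
    have : 2 ^ κ' ≤ 2 ^ l := Nat.pow_le_pow_right (by norm_num) hcon
    omega
  have hcl : cnt (B κ') J (2 ^ l) ≤ 2 ^ l := by
    unfold cnt
    refine (card_filter_le _ _).trans ?_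
    rw [card_range]
  have hal : a l ≤ 2 ^ l := max_le hcl Nat.one_le_two_pow
  have h2l : 2 ^ (2 * κ + 1) ≤ 2 ^ l := Nat.pow_le_pow_right (by norm_num) hl3
  have e2κ : 2 ^ (2 * κ + 1) = 2 * 2 ^ (2 * κ) := by ring
  have hp : 0 < 2 ^ (2 * κ) := by positivity
  have h1 : 2 ^ l ≤ 64 * m * a l := by
    rcases (hclaim l (by omega) hl4.le).1 with h | h
    · exfalso
      have h2 : 4 ^ l ≤ 4 ^ κ * 2 ^ l := h.trans (Nat.mul_le_mul_left _ hal)
      have e4 : 4 ^ l = 2 ^ l * 2 ^ l := by rw [← mul_pow]; norm_num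
      have e5 : 4 ^ κ = 2 ^ (2 * κ) := by rw [pow_mul]; norm_num
      rw [e4, e5] at h2
      have h3 : 2 ^ l ≤ 2 ^ (2 * κ) := Nat.le_of_mul_le_mul_right h2 (by positivity)
      omega
    · exact h
  have h2 : a l = cnt (B κ') J (2 ^ l) := by
    simp only [ha]
    apply max_eq_left
    by_contra hcon
    push Not at hcon
    have h3 : a l = 1 := by simp only [ha]; omega
    rw [h3] at h1
    omega
  have h3 : cnt (B κ') J (2 ^ l) ≤ cnt (B κ') J x := cnt_mono _ _ hl1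
  have h4 : x ≤ 128 * m * cnt (B κ') J x := by
    have e : 2 ^ (l + 1) = 2 * 2 ^ l := by ring
    calc x ≤ 2 * 2 ^ l := by omega
      _ ≤ 2 * (64 * m * a l) := by omega
      _ = 128 * m * cnt (B κ') J (2 ^ l) := by rw [h2]; ring
      _ ≤ _ := Nat.mul_le_mul_left _ h3
  have h5 : (x : ℝ) ≤ 128 * m * cnt (B κ') J x := by exact_mod_cast h4
  rw [div_mul_eq_mul_div, one_mul, div_le_iff₀ (by positivity)]
  have h6 : (0 : ℝ) ≤ cnt (B κ') J x := by positivity
  nlinarith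

end Pool.Agent.J4H40.PB
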