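import Pool.Agent.J4H40.PB.M
set_option autoImplicit false
namespace Pool.Agent.J4H40.PB
open Finset Filter Topology

lemma Dens_mono {s S : ℕ} {B : Set ℕ} {k X X' : ℕ} {c : ℝ} (h : X ≤ X') (hd : Dens s S B k X c) : Dens s S B k X' c :=
  fun J hJ hJn x h1 h2 => hd J hJ hJn x (h.trans h1) h2

lemma Qual_down {s0 s : ℕ} {B : Set ℕ} {l : ℕ} {δ : ℝ} (h : s0 ≤ s) (hsl : s ≤ 2 ^ l) (hq : Qual s B l δ) :
    Qual s0 B l (δ + s / 2 ^ l) := by
  intro J hJ hJn N hN1 hN2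
  have hJs : J ⊆ range s := hJ.trans (range_subset_range.2 h)
  have hp : (0 : ℝ) < 2 ^ l := by positivity
  have e : (δ + s / 2 ^ l) * 2 ^ l = δ * 2 ^ l + s := by field_simp
  rw [e]
  have e2 : 2 ^ (l + 1) = 2 * 2 ^ l := by ring
  set N' := min N (2 ^ (l + 1) - s) with hN'
  have h1 : 2 ^ l ≤ N' := by omega
  have h2 : N' ≤ N := by omega
  have h3 : N' + s ≤ 2 ^ (l + 1) := by omega
  rw [T_split _ _ h1 h2]
  refine (abs_add_le _ _).trans ?_
  have h4 := hq J hJs hJn N' h1 h3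
  have h5 := T_abs (pz B) J N' N
  have h6 : ((N - N' : ℕ) : ℝ) ≤ s := by exact_mod_cast (by omega : N - N' ≤ s)
  linarith

/-- the first blocks `κ s` and the numbers of deleted parts of the levels `s` -/
lemma params (φ : ℕ → ℕ) (hφ : Tendsto φ atTop atTop) (N₀ : ℕ) : ∃ κ m h : ℕ → ℕ, StrictMono κ ∧ N₀ ≤ κ 0 ∧
    (∀ s, s ≤ κ s) ∧ (∀ s, 64 * m s ≤ 2 ^ (2 * κ s)) ∧ (∀ s, 1 ≤ κ s) ∧ (∀ s, 2 * (s + 1) ≤ 2 ^ κ s) ∧
    (∀ s, 64 * (s + 1 + 1 + 1) ≤ 2 ^ κ (s + 1)) ∧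
    (∀ s, ∀ l ≥ κ (s + 1), 2 ^ (2 * κ s + 1) + (s + 1 + 1) ≤ 2 ^ (l - h (s + 1))) ∧
    (∀ s, ∀ l ≥ κ (s + 1), m (s + 1) ≤ φ l) ∧
    (∀ s, ∀ l ≥ κ s, ∀ B : Set ℕ, (∀ b ∈ B, b ≤ 2 ^ l) →
      (∀ t, s = t + 1 → Dens s (s + 1) B l (2 ^ (l - h s) - (s + 1)) (1 / (256 * ((m t : ℝ) + 1)))) →
      ∃ D ⊆ Ioc (2 ^ l) (2 ^ (l + 1)), D.card ≤ m s ∧ Qual s (B ∪ (D : Set ℕ)) l (1 / ((s : ℝ) + 16)) ∧
      ∀ J ⊆ range (s + 1), J.Nonempty →
        16 * max (cnt B J (2 ^ (l - 1))) 1 ≤ cnt (B ∪ (D : Set ℕ)) J (2 ^ (l + 1) - (s + 1)) ∨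
        2 ^ l < 16 * m s * max (cnt B J (2 ^ (l - 1))) 1) := by
  choose h m K hE using fun (s μ : ℕ) => E5 s (s + 1) (Nat.le_succ s) (1 / ((s : ℝ) + 16)) (1 / (256 * ((μ : ℝ) + 1)))
    (by positivity) (by positivity)
  have hΦ : ∀ r : ℕ, ∃ L : ℕ, ∀ l ≥ L, r ≤ φ l := fun r => (hφ.eventually_ge_atTop r).exists_forall_of_atTop
  choose Φ hΦ using hΦ
  obtain ⟨μ, hμ0, hμ⟩ : ∃ μ : ℕ → ℕ, μ 0 = 0 ∧ ∀ s, μ (s + 1) = m s (μ s) :=
    ⟨fun s => Nat.rec 0 (fun s μ => m s μ) s, rfl, fun _ => rfl⟩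
  obtain ⟨κ, hκ0, hκ⟩ : ∃ κ : ℕ → ℕ, κ 0 = N₀ + K 0 (μ 0) + m 0 (μ 0) + 20 ∧
      ∀ s, κ (s + 1) = 2 * κ s + h (s + 1) (μ (s + 1)) + K (s + 1) (μ (s + 1)) + m (s + 1) (μ (s + 1)) +
        Φ (m (s + 1) (μ (s + 1))) + 2 * (s + 3) + 20 :=
    ⟨fun s => Nat.rec (N₀ + K 0 (μ 0) + m 0 (μ 0) + 20) (fun s κ => 2 * κ + h (s + 1) (μ (s + 1)) +
      K (s + 1) (μ (s + 1)) + m (s + 1) (μ (s + 1)) + Φ (m (s + 1) (μ (s + 1))) + 2 * (s + 3) + 20) s, rfl, fun _ => rfl⟩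
  have hκm : ∀ s, m s (μ s) + 2 * s + 20 ≤ κ s := by
    intro s
    cases s with
    | zero => omega
    | succ s => have := hκ s; omega
  have hκK : ∀ s, K s (μ s) ≤ κ s := by
    intro s
    cases s with
    | zero => omega
    | succ s => have := hκ s; omega
  refine ⟨κ, fun s => m s (μ s), fun s => h s (μ s), strictMono_nat_of_lt_succ fun s => by have := hκ s; omega,
    by omega, fun s => by have := hκm s; omega, ?_, fun s => by have := hκm s; omega, ?_, ?_, ?_, ?_, ?_⟩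
  · intro s
    have h1 := hκm s
    have h2 : m s (μ s) < 2 ^ (m s (μ s)) := Nat.lt_two_pow_self
    calc 64 * m s (μ s) ≤ 2 ^ 6 * 2 ^ (m s (μ s)) := by omega
      _ = 2 ^ (6 + m s (μ s)) := by rw [pow_add]
      _ ≤ _ := Nat.pow_le_pow_right (by norm_num) (by omega)
  · intro s
    have h1 := hκm s
    have h2 : κ s < 2 ^ κ s := Nat.lt_two_pow_self
    omega
  · intro s
    have h1 := hκm (s + 1)
    have h2 : s + 3 < 2 ^ (s + 3) := Nat.lt_two_pow_self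
    calc 64 * (s + 1 + 1 + 1) ≤ 2 ^ 6 * 2 ^ (s + 3) := by omega
      _ = 2 ^ (6 + (s + 3)) := (pow_add 2 6 (s + 3)).symm
      _ ≤ _ := Nat.pow_le_pow_right (by norm_num) (by omega)
  · intro s l hl
    have h1 := hκ s
    have h2 : s + 2 < 2 ^ (s + 2) := Nat.lt_two_pow_self
    have h3 : 1 ≤ 2 ^ (2 * κ s + 1) := Nat.one_le_two_pow
    calc 2 ^ (2 * κ s + 1) + (s + 1 + 1) ≤ 2 ^ (2 * κ s + 1) * 2 ^ (s + 2) := by nlinarith
      _ = 2 ^ (2 * κ s + 1 + (s + 2)) := by rw [← pow_add]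
      _ ≤ _ := Nat.pow_le_pow_right (by norm_num) (by
        show 2 * κ s + 1 + (s + 2) ≤ l - h (s + 1) (μ (s + 1))
        omega)
  · intro s l hl
    have h1 := hκ s
    show m (s + 1) (μ (s + 1)) ≤ φ l
    exact hΦ _ l (by omega)
  · intro s l hl B hB hd
    refine hE s (μ s) l ((hκK s).trans hl) B hB ?_
    cases s with
    | zero =>
      intro J hJ hJn
      rw [range_zero, subset_empty] at hJ
      exact absurd hJ hJn.ne_empty
    | succ t =>
      have h1 := hd t rfl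
      beta_reduce at h1
      rw [← hμ t] at h1
      exact h1

/-- **One set for all word lengths** -/
lemma construct2 (φ : ℕ → ℕ) (hφ : Tendsto φ atTop atTop) (N₀ : ℕ) :
    ∃ (B : Set ℕ) (C : ℕ), (∀ b ∈ B, N₀ < b) ∧
      (∀ k : ℕ, (B ∩ Set.Iic (2 ^ k)).ncard ≤ C + ∑ l ∈ range k, φ l) ∧
      ∀ s : ℕ, ∀ δ : ℝ, 0 < δ → ∃ K : ℕ, ∀ l ≥ K, Qual s B l δ := by
  classical
  obtain ⟨κ, m, h, hκ, hN₀, hsκ, hm, h1κ, h2κ, h64, hX, hφm, hE⟩ := params φ hφ N₀
  have hlev : ∀ k, ∃ s, κ 0 ≤ k → κ s ≤ k ∧ k < κ (s + 1) := by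
    intro k
    by_cases hk : κ 0 ≤ k
    · refine ⟨Nat.findGreatest (fun s => κ s ≤ k) k, fun _ =>
        ⟨Nat.findGreatest_spec (P := fun s => κ s ≤ k) (Nat.zero_le _) hk, ?_⟩⟩
      by_contra hcon
      push Not at hcon
      have h1 := Nat.le_findGreatest (P := fun s => κ s ≤ k) ((hsκ _).trans hcon) hcon
      omega
    · exact ⟨0, fun h => absurd h hk⟩
  choose lev hlev using hlev
  have hlevu : ∀ s k, κ s ≤ k → k < κ (s + 1) → lev k = s := by
    intro s k h1 h2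
    have h0 : κ 0 ≤ k := (hκ.monotone (Nat.zero_le s)).trans h1
    obtain ⟨h3, h4⟩ := hlev k h0
    have h5 : lev k < s + 1 := hκ.lt_iff_lt.1 (h3.trans_lt h2)
    have h6 : s < lev k + 1 := hκ.lt_iff_lt.1 (h1.trans_lt h4)
    omega
  let Good : ℕ → ℕ → Finset ℕ → Finset ℕ → Prop := fun s k B D => D ⊆ Ioc (2 ^ k) (2 ^ (k + 1)) ∧ D.card ≤ m s ∧
    Qual s ((B : Set ℕ) ∪ (D : Set ℕ)) k (1 / ((s : ℝ) + 16)) ∧
      ∀ J ⊆ range (s + 1), J.Nonempty →
        16 * max (cnt (B : Set ℕ) J (2 ^ (k - 1))) 1 ≤ cnt ((B : Set ℕ) ∪ (D : Set ℕ)) J (2 ^ (k + 1) - (s + 1)) ∨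
        2 ^ k < 16 * m s * max (cnt (B : Set ℕ) J (2 ^ (k - 1))) 1
  let step : ℕ → Finset ℕ → Finset ℕ := fun k B =>
    if h : κ 0 ≤ k ∧ ∃ D, Good (lev k) k B D then h.2.choose else ∅
  let F : ℕ → Finset ℕ := fun k => Nat.rec ∅ (fun k B => B ∪ step k B) k
  have hF : ∀ k, F (k + 1) = F k ∪ step k (F k) := fun k => rfl
  have hstep1 : ∀ k B, step k B ⊆ Ioc (2 ^ k) (2 ^ (k + 1)) := by
    intro k B
    by_cases hc : κ 0 ≤ k ∧ ∃ D, Good (lev k) k B D
    · simp only [step, dif_pos hc]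
      exact hc.2.choose_spec.1
    · simp only [step, dif_neg hc]
      exact empty_subset _
  have hstep0 : ∀ k < κ 0, ∀ B, step k B = ∅ := by
    intro k hk B
    have hc : ¬ (κ 0 ≤ k ∧ ∃ D, Good (lev k) k B D) := fun h => by omega
    simp only [step, dif_neg hc]
  have hstep2 : ∀ k, κ 0 ≤ k → (∃ D, Good (lev k) k (F k) D) → Good (lev k) k (F k) (step k (F k)) := by
    intro k hk hD
    have hc : κ 0 ≤ k ∧ ∃ D, Good (lev k) k (F k) D := ⟨hk, hD⟩
    have e : step k (F k) = hc.2.choose := dif_pos hc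
    rw [e]
    exact hc.2.choose_spec
  clear_value step
  have hle : ∀ k, ∀ b ∈ F k, N₀ < b ∧ b ≤ 2 ^ k := by
    intro k
    induction k with
    | zero => intro b hb; exact absurd hb (notMem_empty b)
    | succ k ih =>
      intro b hb
      rw [hF, mem_union] at hb
      have hpow : 2 ^ k ≤ 2 ^ (k + 1) := Nat.pow_le_pow_right (by norm_num) (by omega)
      rcases hb with hb | hb
      · exact ⟨(ih b hb).1, (ih b hb).2.trans hpow⟩
      · rcases Nat.lt_or_ge k (κ 0) with hk | hk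
        · rw [hstep0 k hk] at hb
          exact absurd hb (notMem_empty b)
        · have h1 := mem_Ioc.1 (hstep1 k _ hb)
          have h2 : k < 2 ^ k := Nat.lt_two_pow_self
          exact ⟨by omega, h1.2⟩
  have hmono : ∀ k l, k ≤ l → ∀ i ≤ 2 ^ k, (i ∈ F k ↔ i ∈ F l) := by
    intro k l hkl
    induction l, hkl using Nat.le_induction with
    | base => intro i _; rfl
    | succ l hl ih =>
      intro i hi
      rw [ih i hi, hF l, mem_union]
      constructor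
      · exact Or.inl
      · rintro (h | h)
        · exact h
        · have h1 := mem_Ioc.1 (hstep1 l _ h)
          have h2 : 2 ^ k ≤ 2 ^ l := Nat.pow_le_pow_right (by norm_num) hl
          omega
  clear_value F
  have hgood : ∀ k, κ 0 ≤ k → Good (lev k) k (F k) (step k (F k)) := by
    intro k
    induction k using Nat.strong_induction_on with
    | _ k ih =>
    intro hk
    apply hstep2 k hk
    obtain ⟨h3, h4⟩ := hlev k hk
    obtain ⟨s, hs⟩ : ∃ s, lev k = s := ⟨_, rfl⟩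
    rw [hs] at h3 h4 ⊢
    obtain ⟨D, hD1, hD2, hD3, hD4⟩ := hE s k h3 (F k : Set ℕ) (fun b hb => (hle k b (mem_coe.1 hb)).2) (by
      rintro t rfl
      have hκt : κ t < κ (t + 1) := hκ (Nat.lt_succ_self t)
      have hg := grow (t + 1) (κ t) (κ (t + 1)) (m t) (hm t) (h1κ t) (h2κ t) (fun l => (F l : Set ℕ))
        (fun l _ h6 i hi => hmono l (κ (t + 1)) h6 i hi) (by
        intro l h5 h6 J hJ hJn
        have h7 := ih l (by omega) ((hκ.monotone (Nat.zero_le t)).trans h5)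
        rw [hlevu t l h5 h6] at h7
        have h8 := h7.2.2.2 J hJ hJn
        rw [← coe_union, ← hF l] at h8
        exact h8)
      have hp := persist (t + 1) (t + 1 + 1) (κ (t + 1)) k (2 ^ (2 * κ t + 1)) (by omega)
        (1 / (128 * ((m t : ℝ) + 1))) (by positivity) (by
          rw [div_le_div_iff₀ (by positivity) (by norm_num)]
          have : (0 : ℝ) ≤ m t := by positivity
          linarith) (h64 t) (F (κ (t + 1)) : Set ℕ) (F k : Set ℕ)
        (fun i hi => hmono _ _ h3 i hi) hg (by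
          intro l h5 h6
          have h7 := ih l h6 ((hκ.monotone (Nat.zero_le (t + 1))).trans h5)
          rw [hlevu (t + 1) l h5 (by omega)] at h7
          have h8 := h7.2.2.1
          rw [← coe_union, ← hF l] at h8
          refine Qual_congr (fun i hi => hmono (l + 1) k h6 i hi) (Qual_mono ?_ h8)
          have : (0 : ℝ) ≤ ((t + 1 : ℕ) : ℝ) := by positivity
          rw [div_le_div_iff₀ (by positivity) (by norm_num)]
          linarith) (by
          have h5 := hX t (κ (t + 1)) le_rfl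
          exact h5.trans (Nat.pow_le_pow_right (by norm_num) (Nat.sub_le _ _)))
      have e : 1 / (128 * ((m t : ℝ) + 1)) / 2 = 1 / (256 * ((m t : ℝ) + 1)) := by
        field_simp
        norm_num
      rw [e] at hp
      refine Dens_mono ?_ hp
      have h5 := hX t k h3
      omega)
    exact ⟨D, hD1, hD2, hD3, hD4⟩
  set B : Set ℕ := {b | ∃ k, b ∈ F k} with hBdef
  have hBF : ∀ k, ∀ i ≤ 2 ^ k, (i ∈ B ↔ i ∈ (F k : Set ℕ)) := by
    intro k i hi
    rw [mem_coe]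
    constructor
    · rintro ⟨l, hl⟩
      rcases Nat.le_total k l with h | h
      · exact (hmono k l h i hi).2 hl
      · exact (hmono l k h i (hle l i hl).2).1 hl
    · intro h; exact ⟨k, h⟩
  refine ⟨B, (F (κ 1)).card, ?_, ?_, ?_⟩
  · rintro b ⟨k, hk⟩
    exact (hle k b hk).1
  · intro k
    have h1 : B ∩ Set.Iic (2 ^ k) ⊆ (F k : Set ℕ) := fun i hi => (hBF k i hi.2).1 hi.1
    have h2 : (B ∩ Set.Iic (2 ^ k)).ncard ≤ (F k).card := by
      rw [← Set.ncard_coe_finset]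
      exact Set.ncard_le_ncard h1 (Finset.finite_toSet _)
    refine h2.trans ?_
    clear h1 h2
    induction k with
    | zero =>
      have h3 : F 0 ⊆ F (κ 1) := by
        intro i hi
        exact (hmono 0 (κ 1) (Nat.zero_le _) i (hle 0 i hi).2).1 hi
      have := card_le_card h3
      omega
    | succ k ih =>
      rw [sum_range_succ]
      rcases Nat.lt_or_ge k (κ 1) with h | h
      · have h3 : F (k + 1) ⊆ F (κ 1) := by
          intro i hi
          exact (hmono (k + 1) (κ 1) h i (hle (k + 1) i hi).2).1 hi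
        have := card_le_card h3
        omega
      · have h0 : κ 0 ≤ k := (hκ.monotone (Nat.zero_le 1)).trans h
        have h3 := (hgood k h0).2.1
        obtain ⟨h4, h5⟩ := hlev k h0
        have h6 : 1 < lev k + 1 := hκ.lt_iff_lt.1 (h.trans_lt h5)
        obtain ⟨t, ht⟩ : ∃ t, lev k = t + 1 := ⟨lev k - 1, by omega⟩
        rw [ht] at h3 h4
        have h7 := hφm t k h4
        rw [hF k]
        have := card_union_le (F k) (step k (F k))
        omega
  · intro s δ hδ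
    obtain ⟨r, hr⟩ := exists_nat_one_div_lt (half_pos hδ)
    obtain ⟨K, hK⟩ := lin_pow (2 / δ) 0
    refine ⟨max (κ (max s r)) K, fun l hl => ?_⟩
    have hl1 : κ (max s r) ≤ l := (le_max_left _ _).trans hl
    have hl2 : K ≤ l := (le_max_right _ _).trans hl
    have h0 : κ 0 ≤ l := (hκ.monotone (Nat.zero_le _)).trans hl1
    obtain ⟨h4, h5⟩ := hlev l h0
    have h6 : max s r < lev l + 1 := hκ.lt_iff_lt.1 (hl1.trans_lt h5)
    have h7 := (hgood l h0).2.2.1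
    rw [← coe_union, ← hF l] at h7
    have hll : lev l ≤ l := (hsκ _).trans h4
    have hl3 : l < 2 ^ l := Nat.lt_two_pow_self
    have h8 := Qual_down (s0 := s) (by omega) (by omega) h7
    refine Qual_congr (fun i hi => (hBF (l + 1) i hi).symm) (Qual_mono ?_ h8)
    have h9 : 1 / ((lev l : ℝ) + 16) ≤ δ / 2 := by
      refine le_trans ?_ hr.le
      have : (r : ℝ) ≤ lev l := by exact_mod_cast (by omega : r ≤ lev l)
      gcongr
      linarith
    have h10 : (lev l : ℝ) / 2 ^ l ≤ δ / 2 := by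
      have h11 := hK l hl2
      rw [Nat.sub_zero, div_mul_eq_mul_div, div_le_iff₀ hδ] at h11
      rw [div_le_iff₀ (by positivity)]
      have : (lev l : ℝ) ≤ l := by exact_mod_cast hll
      linarith
    linarith

theorem main2 (N₀ : ℕ) (ω : ℕ → ℝ) (hω : Tendsto ω atTop atTop) :
    ∃ B : Set ℕ, (∀ b ∈ B, N₀ < b) ∧
      (∀ᶠ X : ℕ in atTop, ((B ∩ Set.Iic X).ncard : ℝ) ≤ ω X * Real.log X) ∧
      ∀ (s : ℕ) (w : ℕ → ZMod 2),
        Tendsto (fun X : ℕ => (({n : ℕ | ∀ i < s, pz B (n + i) = w i} ∩ Set.Iio X).ncard : ℝ) / X)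
          atTop (𝓝 (1 / 2 ^ s)) := by
  obtain ⟨φ, hφ1, hφ2⟩ := choose_phi ω hω
  obtain ⟨B, C, h1, h2, h3⟩ := construct2 φ hφ1 N₀
  refine ⟨B, h1, sparse ω hω φ hφ2 B C h2, fun s w => ?_⟩
  have h4 := word_bound B s (fun J hJ hJn ε hε => E4 s B (h3 s) J hJ hJn ε hε) w
  rw [Metric.tendsto_atTop]
  intro ε hε
  obtain ⟨X₀, hX₀⟩ := h4 (ε / 2) (by linarith)
  refine ⟨X₀ + 1, fun X hX => ?_⟩
  have h5 := hX₀ X (by omega)
  have hX0 : (0 : ℝ) < X := by exact_mod_cast (by omega : 0 < X)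
  rw [Real.dist_eq]
  have e : (({n : ℕ | ∀ i < s, pz B (n + i) = w i} ∩ Set.Iio X).ncard : ℝ) / X - 1 / 2 ^ s =
      ((({n : ℕ | ∀ i < s, pz B (n + i) = w i} ∩ Set.Iio X).ncard : ℝ) - (1 / 2) ^ s * X) / X := by
    rw [div_pow, one_pow]
    field_simp
  rw [e, abs_div, abs_of_pos hX0, div_lt_iff₀ hX0]
  nlinarith

end Pool.Agent.J4H40.PB
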